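import Pool.Agent.helper26.B3.SC

/-!
Semiconvexity in each of three variables on a box, the corner bound, and averages.
-/

namespace Pool.Agent.helper26.B3

open Real Set MeasureTheory intervalIntegral Q

/-- A box for the variables `(u, p, w)`. -/
structure Box where
  u0 : ℝ
  u1 : ℝ
  p0 : ℝ
  p1 : ℝ
  w0 : ℝ
  w1 : ℝ

/-- Membership in a box. -/
def Box.mem (B : Box) (u p w : ℝ) : Prop := u ∈ Icc B.u0 B.u1 ∧ p ∈ Icc B.p0 B.p1 ∧ w ∈ Icc B.w0 B.w1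

/-- `f` is semiconvex in each variable on the box `B` with constants `ku, kp, kw`. -/
def SC3 (B : Box) (ku kp kw : ℝ) (f : ℝ → ℝ → ℝ → ℝ) : Prop :=
  (∀ p ∈ Icc B.p0 B.p1, ∀ w ∈ Icc B.w0 B.w1, SC ku (fun u => f u p w) (Icc B.u0 B.u1)) ∧
  (∀ u ∈ Icc B.u0 B.u1, ∀ w ∈ Icc B.w0 B.w1, SC kp (fun p => f u p w) (Icc B.p0 B.p1)) ∧
  (∀ u ∈ Icc B.u0 B.u1, ∀ p ∈ Icc B.p0 B.p1, SC kw (fun w => f u p w) (Icc B.w0 B.w1))

lemma SC.add {κ κ' : ℝ} {g g' : ℝ → ℝ} {J : Set ℝ} (h : SC κ g J) (h' : SC κ' g' J) :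
    SC (κ + κ') (fun x => g x + g' x) J := by
  intro x hx y hy θ h0 h1
  have a := h x hx y hy θ h0 h1
  have b := h' x hx y hy θ h0 h1
  simp only
  nlinarith [a, b]

lemma SC.smul {κ : ℝ} {g : ℝ → ℝ} {J : Set ℝ} (h : SC κ g J) {c : ℝ} (hc : 0 ≤ c) :
    SC (c * κ) (fun x => c * g x) J := by
  intro x hx y hy θ h0 h1
  have a := mul_le_mul_of_nonneg_left (h x hx y hy θ h0 h1) hc
  simp only
  nlinarith [a]

lemma SC3.add {B : Box} {ku kp kw ku' kp' kw' : ℝ} {f f' : ℝ → ℝ → ℝ → ℝ}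
    (h : SC3 B ku kp kw f) (h' : SC3 B ku' kp' kw' f') :
    SC3 B (ku + ku') (kp + kp') (kw + kw') (fun u p w => f u p w + f' u p w) :=
  ⟨fun p hp w hw => (h.1 p hp w hw).add (h'.1 p hp w hw),
   fun u hu w hw => (h.2.1 u hu w hw).add (h'.2.1 u hu w hw),
   fun u hu p hp => (h.2.2 u hu p hp).add (h'.2.2 u hu p hp)⟩

lemma SC3.smul {B : Box} {ku kp kw : ℝ} {f : ℝ → ℝ → ℝ → ℝ} (h : SC3 B ku kp kw f) {c : ℝ}
    (hc : 0 ≤ c) : SC3 B (c * ku) (c * kp) (c * kw) (fun u p w => c * f u p w) :=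
  ⟨fun p hp w hw => (h.1 p hp w hw).smul hc,
   fun u hu w hw => (h.2.1 u hu w hw).smul hc,
   fun u hu p hp => (h.2.2 u hu p hp).smul hc⟩

lemma SC.one_dim {κ : ℝ} {g : ℝ → ℝ} {a b : ℝ} (h : SC κ g (Icc a b)) (hk : 0 ≤ κ) {c : ℝ}
    (ha : g a ≤ c) (hb : g b ≤ c) {x : ℝ} (hx : x ∈ Icc a b) :
    g x ≤ c + κ * (b - a) ^ 2 / 8 := by
  rcases hx with ⟨h1, h2⟩
  rcases (h1.trans h2).eq_or_lt with hab | hab
  · have : x = a := by linarith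
    subst this
    have : 0 ≤ κ * (b - x) ^ 2 / 8 := by positivity
    linarith
  · have hd : 0 < b - a := sub_pos.2 hab
    set θ := (x - a) / (b - a) with hθ
    have hxe : x = (1 - θ) * a + θ * b := by rw [hθ]; field_simp; ring
    have h0 : 0 ≤ θ := div_nonneg (by linarith) hd.le
    have h1' : θ ≤ 1 := by rw [hθ, div_le_one hd]; linarith
    have := h a ⟨le_rfl, hab.le⟩ b ⟨hab.le, le_rfl⟩ θ h0 h1'
    rw [← hxe] at this
    have e1 : (1 - θ) * g a + θ * g b ≤ c := by nlinarith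
    have e2 : κ / 2 * (θ * (1 - θ)) * (a - b) ^ 2 ≤ κ * (b - a) ^ 2 / 8 := by
      have : θ * (1 - θ) ≤ 1 / 4 := by nlinarith [sq_nonneg (θ - 1 / 2)]
      have h3 : 0 ≤ κ * (b - a) ^ 2 := by positivity
      nlinarith
    linarith

/-- The corner bound. -/
lemma SC3.corner {B : Box} {ku kp kw : ℝ} {f : ℝ → ℝ → ℝ → ℝ} (h : SC3 B ku kp kw f)
    (hu : 0 ≤ ku) (hp : 0 ≤ kp) (hw : 0 ≤ kw) (bu : B.u0 ≤ B.u1) (bp : B.p0 ≤ B.p1)
    (bw : B.w0 ≤ B.w1) {c : ℝ}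
    (h000 : f B.u0 B.p0 B.w0 ≤ c) (h001 : f B.u0 B.p0 B.w1 ≤ c)
    (h010 : f B.u0 B.p1 B.w0 ≤ c) (h011 : f B.u0 B.p1 B.w1 ≤ c)
    (h100 : f B.u1 B.p0 B.w0 ≤ c) (h101 : f B.u1 B.p0 B.w1 ≤ c)
    (h110 : f B.u1 B.p1 B.w0 ≤ c) (h111 : f B.u1 B.p1 B.w1 ≤ c)
    {u p w : ℝ} (hm : B.mem u p w) :
    f u p w ≤ c + (ku * (B.u1 - B.u0) ^ 2 + kp * (B.p1 - B.p0) ^ 2 + kw * (B.w1 - B.w0) ^ 2) / 8 := by
  obtain ⟨mu, mp, mw⟩ := hm
  have l0 : B.u0 ∈ Icc B.u0 B.u1 := ⟨le_rfl, bu⟩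
  have l1 : B.u1 ∈ Icc B.u0 B.u1 := ⟨bu, le_rfl⟩
  have p0 : B.p0 ∈ Icc B.p0 B.p1 := ⟨le_rfl, bp⟩
  have p1 : B.p1 ∈ Icc B.p0 B.p1 := ⟨bp, le_rfl⟩
  have a00 := (h.2.2 B.u0 l0 B.p0 p0).one_dim hw h000 h001 mw
  have a01 := (h.2.2 B.u0 l0 B.p1 p1).one_dim hw h010 h011 mw
  have a10 := (h.2.2 B.u1 l1 B.p0 p0).one_dim hw h100 h101 mw
  have a11 := (h.2.2 B.u1 l1 B.p1 p1).one_dim hw h110 h111 mw
  have b0 := (h.2.1 B.u0 l0 w mw).one_dim hp a00 a01 mp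
  have b1 := (h.2.1 B.u1 l1 w mw).one_dim hp a10 a11 mp
  have c0 := (h.1 p mp w mw).one_dim hu b0 b1 mu
  linarith

/-- Composition with a linear form. -/
lemma SC3.comp {B : Box} {κ : ℝ} {g : ℝ → ℝ} {J : Set ℝ} (h : SC κ g J) (a b c : ℝ)
    (hJ : ∀ u p w, B.mem u p w → a * u + b * p + c * w ∈ J) :
    SC3 B (κ * a ^ 2) (κ * b ^ 2) (κ * c ^ 2) (fun u p w => g (a * u + b * p + c * w)) := by
  refine ⟨fun p hp w hw x hx y hy θ h0 h1 => ?_, fun u hu w hw x hx y hy θ h0 h1 => ?_,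
    fun u hu p hp x hx y hy θ h0 h1 => ?_⟩
  · have := h _ (hJ x p w ⟨hx, hp, hw⟩) _ (hJ y p w ⟨hy, hp, hw⟩) θ h0 h1
    have e : (1 - θ) * (a * x + b * p + c * w) + θ * (a * y + b * p + c * w) =
      a * ((1 - θ) * x + θ * y) + b * p + c * w := by ring
    rw [e] at this
    simp only
    nlinarith [this]
  · have := h _ (hJ u x w ⟨hu, hx, hw⟩) _ (hJ u y w ⟨hu, hy, hw⟩) θ h0 h1
    have e : (1 - θ) * (a * u + b * x + c * w) + θ * (a * u + b * y + c * w) =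
      a * u + b * ((1 - θ) * x + θ * y) + c * w := by ring
    rw [e] at this
    simp only
    nlinarith [this]
  · have := h _ (hJ u p x ⟨hu, hp, hx⟩) _ (hJ u p y ⟨hu, hp, hy⟩) θ h0 h1
    have e : (1 - θ) * (a * u + b * p + c * x) + θ * (a * u + b * p + c * y) =
      a * u + b * p + c * ((1 - θ) * x + θ * y) := by ring
    rw [e] at this
    simp only
    nlinarith [this]

lemma SC.avg {κ : ℝ} {g : ℝ → ℝ → ℝ} {k : ℝ → ℝ} {J : Set ℝ} (hk0 : ∀ τ ∈ Icc (0 : ℝ) 1, 0 ≤ k τ)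
    (hk : Continuous k) (hk1 : ∫ τ in (0 : ℝ)..1, k τ = 1)
    (hg : ∀ x, Continuous fun τ => g τ x)
    (h : ∀ τ ∈ Icc (0 : ℝ) 1, SC κ (g τ) J) :
    SC κ (fun x => ∫ τ in (0 : ℝ)..1, k τ * g τ x) J := by
  intro x hx y hy θ h0 h1
  simp only
  have i1 : ∀ x, IntervalIntegrable (fun τ => k τ * g τ x) volume 0 1 := fun x =>
    (hk.mul (hg x)).intervalIntegrable _ _
  have i2 : IntervalIntegrable (fun τ => k τ * (κ / 2 * (θ * (1 - θ)) * (x - y) ^ 2)) volume 0 1 :=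
    (hk.mul continuous_const).intervalIntegrable _ _
  have i3 : IntervalIntegrable (fun τ => (1 - θ) * (k τ * g τ x)) volume 0 1 := (i1 x).const_mul _
  have i4 : IntervalIntegrable (fun τ => θ * (k τ * g τ y)) volume 0 1 := (i1 y).const_mul _
  have i5 : IntervalIntegrable (fun τ => (1 - θ) * (k τ * g τ x) + θ * (k τ * g τ y)) volume 0 1 :=
    i3.add i4
  have hle : ∫ τ in (0 : ℝ)..1, k τ * g τ ((1 - θ) * x + θ * y) ≤
      ∫ τ in (0 : ℝ)..1, (((1 - θ) * (k τ * g τ x) + θ * (k τ * g τ y))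
        + k τ * (κ / 2 * (θ * (1 - θ)) * (x - y) ^ 2)) := by
    refine integral_mono_on zero_le_one (i1 _) ?_ fun τ hτ => ?_
    · exact i5.add i2
    · have := mul_le_mul_of_nonneg_left (h τ hτ x hx y hy θ h0 h1) (hk0 τ hτ)
      nlinarith [this]
  rw [integral_add i5 i2, integral_add i3 i4, intervalIntegral.integral_const_mul,
      intervalIntegral.integral_const_mul, intervalIntegral.integral_mul_const, hk1] at hle
  linarith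

lemma SC3.avg {B : Box} {ku kp kw : ℝ} {f : ℝ → ℝ → ℝ → ℝ → ℝ} {k : ℝ → ℝ}
    (hk0 : ∀ τ ∈ Icc (0 : ℝ) 1, 0 ≤ k τ)
    (hk : Continuous k) (hk1 : ∫ τ in (0 : ℝ)..1, k τ = 1)
    (hf : ∀ u p w, Continuous fun τ => f τ u p w)
    (h : ∀ τ ∈ Icc (0 : ℝ) 1, SC3 B ku kp kw (f τ)) :
    SC3 B ku kp kw (fun u p w => ∫ τ in (0 : ℝ)..1, k τ * f τ u p w) :=
  ⟨fun p hp w hw => SC.avg (g := fun τ u => f τ u p w) hk0 hk hk1 (fun u => hf u p w)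
      fun τ hτ => (h τ hτ).1 p hp w hw,
   fun u hu w hw => SC.avg (g := fun τ p => f τ u p w) hk0 hk hk1 (fun p => hf u p w)
      fun τ hτ => (h τ hτ).2.1 u hu w hw,
   fun u hu p hp => SC.avg (g := fun τ w => f τ u p w) hk0 hk hk1 (fun w => hf u p w)
      fun τ hτ => (h τ hτ).2.2 u hu p hp⟩

lemma SC3.mono {B : Box} {ku kp kw ku' kp' kw' : ℝ} {f : ℝ → ℝ → ℝ → ℝ}
    (h : SC3 B ku kp kw f) (hu : ku ≤ ku') (hp : kp ≤ kp') (hw : kw ≤ kw') :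
    SC3 B ku' kp' kw' f :=
  ⟨fun p hp' w hw' => (h.1 p hp' w hw').mono subset_rfl hu,
   fun u hu' w hw' => (h.2.1 u hu' w hw').mono subset_rfl hp,
   fun u hu' p hp' => (h.2.2 u hu' p hp').mono subset_rfl hw⟩

end Pool.Agent.helper26.B3
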