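import Pool.Agent.helper26.B3.Table

/-!
The integer checker for the boxes. Coordinates are in units of `1/64`.
-/

namespace Pool.Agent.helper26.B3

/-- A certificate tree: splits of a box, with multipliers at the leaves. -/
inductive Tr where
  | skip : Tr
  | leaf (a b c d mu lam g k : Int) : Tr
  | splitU (m : Int) (l r : Tr) : Tr
  | splitP (m : Int) (l r : Tr) : Tr
  | splitW (m : Int) (l r : Tr) : Tr

/-- Linear form in seven table values. -/
def lin7 (x1 x2 x3 x4 x5 x6 x7 Sa Sb Sd La Lb Ld sz : Int) : Int :=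
  x1 * Sa + x2 * Sb + x3 * Sd + x4 * La + x5 * Lb + x6 * Ld - x7 * sz

/-- Absolute value as an integer. -/
def ab (x : Int) : Int := Int.ofNat x.natAbs

/-- The check at one corner `(U, P, W)`. -/
def corner (a b c d mu lam g k E1 E2 E3 EG U P W : Int) : Bool :=
  let V := U + P
  let W2 := W * W
  let V2 := V * V
  let W3 := W2 * W
  let V3 := V2 * V
  let pa := 64 * a * (W2 * V3)
  let pb := 64 * b * (W3 * V2)
  let pc := 24576 * c * (W * V3)
  let pc' := 3145728 * c * V3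
  let pd := 24576 * d * (V * W3)
  let pd' := 3145728 * d * W3
  let D := W3 * V3
  let x1 := pc - pa
  let x2 := pa + pc - pb + pd
  let x3 := pb + pd
  let x4 := pc'
  let x5 := pd' - pc'
  let x6 := -pd'
  let x7 := mu * D
  let aD := ab D
  let B := 16 * (ab x1 + ab x2 + ab x3 + ab x4 + ab x5 + ab x6 + ab x7)
  let S12 := TS (-P - W)
  let S13 := TS (U - W)
  let S23 := TS U
  let L11 := TL (-P - 2 * W)
  let L12 := TL (-P - W)
  let L22 := TL (-P)
  let L13 := TL (U - W)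
  let L23 := TL U
  let L33 := TL (2 * U + P)
  let S33 := TS (2 * U + P)
  let s33 := Ts (2 * U + P)
  let n1 := lin7 x1 x2 x3 x4 x5 x6 x7 (TS (-P - 2 * W)) S12 S13 L11 L12 L13 (Ts (U - W))
  let n2 := lin7 x1 x2 x3 x4 x5 x6 x7 S12 (TS (-P)) S23 L12 L22 L23 (Ts U)
  let n3 := lin7 x1 x2 x3 x4 x5 x6 x7 S13 S23 S33 L13 L23 L33 s33
  let sg : Int := if 0 < W then 1 else -1
  decide (0 < V) && decide (0 < W ∨ W < 0) &&
  decide (32768 * (sg * n1 + B) + E1 * aD ≤ 0) && decide (32768 * (sg * n2 + B) + E2 * aD ≤ 0) &&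
  (if lam = 0 then decide (32768 * (sg * n3 + B) + E3 * aD ≤ 0) else
    let h := 32 + g
    let W22 := L33 - 2 * L23 + L22
    let W12 := L23 - L13 - L22 + L12
    let W11 := L22 - 2 * L12 + L11
    let y1 := 1024 * (W2 * V2)
    let y2 := 4096 * h * (W2 * V)
    let y3 := 4096 * g * (W * V2)
    let y4 := 4096 * (h * h) * W2
    let y5 := 8192 * (g * h) * (W * V)
    let y6 := 4096 * (g * g) * V2
    let k0 := y1 * s33 - y2 * (S33 - S23) + y3 * (S23 - S13) + y4 * W22 - y5 * W12 + y6 * W11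
    let k0e := 16 * (ab y1 + 2 * ab y2 + 2 * ab y3 + 4 * ab y4 + 4 * ab y5 + 4 * ab y6)
    let lw := lam * (W * V)
    let z1 := (2048 + k) * (W * V2)
    let z2 := 4096 * h * (W * V)
    let z3 := 4096 * g * V2
    let g0 := z1 * (S23 - S13) - z2 * W12 + z3 * W11
    let g0e := 16 * (2 * ab z1 + 4 * ab z2 + 4 * ab z3)
    decide (32768 * (sg * (n3 - lw * k0) + (B + ab lw * k0e)) + E3 * aD ≤ 0) &&
    decide (EG * (W2 * V2) ≤ 67108864 * (g0 - g0e)))

/-- Curvature contribution of a coefficient. -/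
def cur (c km kp : Int) : Int := if 0 ≤ c then c * km else -c * kp

/-- Distance from `0` of an interval `[lo, hi]`. -/
def dist (lo hi : Int) : Nat := max lo.toNat (-hi).toNat

def km (m : Nat) : Int := min 2305843009213693952 (Ts m + 16)
def kp (m : Nat) : Int := min 768614336404564651 (Ts m + 16)
def k3 (m : Nat) : Int := min 2398076729582241711 (Ts m + 16)

/-- The check of one box with given multipliers. -/
def leafOK (U0 U1 P0 P1 W0 W1 a b c d mu lam g k : Int) : Bool :=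
  let dU := (U1 - U0) * (U1 - U0)
  let dP := (P1 - P0) * (P1 - P0)
  let dW := (W1 - W0) * (W1 - W0)
  let qA := dP + 4 * dW
  let qB := dP + dW
  let qC := dU + dW
  let qD := dU + dP + dW
  let qE := dU + dP
  let qF := 4 * dU + dP
  let m11 := dist (min (-P1 - 2 * W1) (-P1 - W1)) (max (-P0 - 2 * W0) (-P0 - W0))
  let m12 := dist (min (-P1 - W1) (-P1)) (max (-P0 - W0) (-P0))
  let m13 := dist (min (U0 - W1) U0) (max (U1 - W0) U1)
  let m21 := dist (min (-P1 - W1) (U0 - W1)) (max (-P0 - W0) (U1 - W0))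
  let m22 := dist (-P1) U1
  let m23 := dist U0 (2 * U1 + P1)
  let n13 := dist (U0 - W1) (U1 - W0)
  let n23 := dist U0 U1
  let n33 := dist (2 * U0 + P0) (2 * U1 + P1)
  let E1 := cur a (km m11) (kp m11) * qA + cur b (km m21) (kp m21) * qD
    + cur c (k3 m11) (k3 m11) * qA + cur d (k3 m21) (k3 m21) * qD
    + cur (-mu) (km n13) (kp n13) * qC
  let E2 := cur a (km m12) (kp m12) * qB + cur b (km m22) (kp m22) * qE
    + cur c (k3 m12) (k3 m12) * qB + cur d (k3 m22) (k3 m22) * qE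
    + cur (-mu) (km n23) (kp n23) * dU
  let E3 := cur a (km m13) (kp m13) * qC + cur b (km m23) (kp m23) * qF
    + cur c (k3 m13) (k3 m13) * qC + cur d (k3 m23) (k3 m23) * qF
    + cur (-mu) (km n33) (kp n33) * qF
  let h := 32 + g
  let w11 := dist (min (-P1 - 2 * W1) (min (-P1 - W1) (-P1))) (max (-P0 - 2 * W0) (max (-P0 - W0) (-P0)))
  let w12 := dist (min (-P1 - W1) (min (U0 - W1) (-P1))) (max (-P0 - W0) (max (U1 - W0) U1))
  let w22 := dist (-P1) (2 * U1 + P1)
  let E3' := E3 + lam * (cur (-1024) (km n33) (kp n33) * qF + cur (64 * h) (km m23) (kp m23) * qF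
    + cur (-(64 * g)) (km m13) (kp m13) * qC + cur (-(h * h)) (km w22) (kp w22) * qF
    + cur (2 * g * h) (km w12) (kp w12) * qD + cur (-(g * g)) (km w11) (kp w11) * qA)
  let EG := cur (-(32 * (2048 + k))) (km m13) (kp m13) * qC
    + cur (2048 * h) (km w12) (kp w12) * qD + cur (-(2048 * g)) (km w11) (kp w11) * qA
  let ck := corner a b c d mu lam g k E1 E2 E3' EG
  decide (0 ≤ lam) && decide (0 ≤ k) && decide (lam * (1024 + k) ≤ mu) && decide (mu < a + b) &&
  decide (U0 ≤ U1) && decide (P0 ≤ P1) && decide (W0 ≤ W1) &&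
  decide (0 ≤ U0) && decide (0 ≤ P0) && decide (-64 ≤ W0) &&
  decide (P1 + 2 * W1 ≤ 2048) && decide (2 * U1 + P1 ≤ 2048) &&
  ck U0 P0 W0 && ck U0 P0 W1 && ck U0 P1 W0 && ck U0 P1 W1 &&
  ck U1 P0 W0 && ck U1 P0 W1 && ck U1 P1 W0 && ck U1 P1 W1

/-- The check of a certificate tree over a box. `skip` is allowed where `2 u <= w`. -/
def Tr.ok : Tr → Int → Int → Int → Int → Int → Int → Bool
  | .skip, _, U1, _, _, W0, _ => decide (2 * U1 ≤ W0)
  | .leaf a b c d mu lam g k, U0, U1, P0, P1, W0, W1 => leafOK U0 U1 P0 P1 W0 W1 a b c d mu lam g k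
  | .splitU m l r, U0, U1, P0, P1, W0, W1 => l.ok U0 m P0 P1 W0 W1 && r.ok m U1 P0 P1 W0 W1
  | .splitP m l r, U0, U1, P0, P1, W0, W1 => l.ok U0 U1 P0 m W0 W1 && r.ok U0 U1 m P1 W0 W1
  | .splitW m l r, U0, U1, P0, P1, W0, W1 => l.ok U0 U1 P0 P1 W0 m && r.ok U0 U1 P0 P1 m W1

end Pool.Agent.helper26.B3
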