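import Pool.Agent.helper26.B3.Fdef
import Pool.Agent.helper16.B3.Tab

/-!
Total curvature of the terms on an integer box, and the corner bound.
-/

namespace Pool.Agent.helper26.B3

open Real Set Q

/-- The box with integer bounds, in units of `1/64`. -/
noncomputable def bx (U0 U1 P0 P1 W0 W1 : ℤ) : Box :=
  ⟨(U0 : ℝ) / 64, (U1 : ℝ) / 64, (P0 : ℝ) / 64, (P1 : ℝ) / 64, (W0 : ℝ) / 64, (W1 : ℝ) / 64⟩

/-- The total curvature of `f` over the box is at most `e / (32768 * 2^64)`. -/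
def TB (U0 U1 P0 P1 W0 W1 : ℤ) (e : ℝ) (f : ℝ → ℝ → ℝ → ℝ) : Prop :=
  ∃ ku kp kw : ℝ, 0 ≤ ku ∧ 0 ≤ kp ∧ 0 ≤ kw ∧ SC3 (bx U0 U1 P0 P1 W0 W1) ku kp kw f ∧
    2 ^ 64 * (ku * ((U1 : ℝ) - U0) ^ 2 + kp * ((P1 : ℝ) - P0) ^ 2 + kw * ((W1 : ℝ) - W0) ^ 2) ≤ e

variable {U0 U1 P0 P1 W0 W1 : ℤ} {e e' : ℝ} {f f' : ℝ → ℝ → ℝ → ℝ}

lemma TB.add (h : TB U0 U1 P0 P1 W0 W1 e f) (h' : TB U0 U1 P0 P1 W0 W1 e' f') :
    TB U0 U1 P0 P1 W0 W1 (e + e') (fun u p w => f u p w + f' u p w) := by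
  obtain ⟨a, b, c, ha, hb, hc, h1, h2⟩ := h
  obtain ⟨a', b', c', ha', hb', hc', h1', h2'⟩ := h'
  exact ⟨a + a', b + b', c + c', by positivity, by positivity, by positivity, h1.add h1',
    by nlinarith⟩

lemma TB.smul (h : TB U0 U1 P0 P1 W0 W1 e f) {c : ℝ} (hc : 0 ≤ c) :
    TB U0 U1 P0 P1 W0 W1 (c * e) (fun u p w => c * f u p w) := by
  obtain ⟨x, y, z, hx, hy, hz, h1, h2⟩ := h
  refine ⟨c * x, c * y, c * z, by positivity, by positivity, by positivity, h1.smul hc, ?_⟩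
  have := mul_le_mul_of_nonneg_left h2 hc
  calc _ = c * (2 ^ 64 * (x * ((U1 : ℝ) - U0) ^ 2 + y * ((P1 : ℝ) - P0) ^ 2
        + z * ((W1 : ℝ) - W0) ^ 2)) := by ring
    _ ≤ _ := this

lemma TB.mono (h : TB U0 U1 P0 P1 W0 W1 e f) (he : e ≤ e') : TB U0 U1 P0 P1 W0 W1 e' f := by
  obtain ⟨x, y, z, hx, hy, hz, h1, h2⟩ := h
  exact ⟨x, y, z, hx, hy, hz, h1, h2.trans he⟩

lemma TB.congr (h : TB U0 U1 P0 P1 W0 W1 e f) (hf : ∀ u p w, f u p w = f' u p w) :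
    TB U0 U1 P0 P1 W0 W1 e f' := by
  have : f = f' := by funext u p w; exact hf u p w
  rwa [this] at h

/-- The corner bound in integer units. -/
lemma TB.corner (h : TB U0 U1 P0 P1 W0 W1 e f) (bu : U0 ≤ U1) (bp : P0 ≤ P1) (bw : W0 ≤ W1)
    (hc : ∀ U P W : ℤ, (U = U0 ∨ U = U1) → (P = P0 ∨ P = P1) → (W = W0 ∨ W = W1) →
      f ((U : ℝ) / 64) ((P : ℝ) / 64) ((W : ℝ) / 64) ≤ -e / (32768 * 2 ^ 64))
    {u p w : ℝ} (hm : (bx U0 U1 P0 P1 W0 W1).mem u p w) : f u p w ≤ 0 := by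
  obtain ⟨x, y, z, hx, hy, hz, h1, h2⟩ := h
  have bu' : (U0 : ℝ) ≤ U1 := by exact_mod_cast bu
  have bp' : (P0 : ℝ) ≤ P1 := by exact_mod_cast bp
  have bw' : (W0 : ℝ) ≤ W1 := by exact_mod_cast bw
  have key := h1.corner hx hy hz (by simp only [bx]; linarith) (by simp only [bx]; linarith)
    (by simp only [bx]; linarith) (c := -e / (32768 * 2 ^ 64))
    (hc _ _ _ (Or.inl rfl) (Or.inl rfl) (Or.inl rfl))
    (hc _ _ _ (Or.inl rfl) (Or.inl rfl) (Or.inr rfl))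
    (hc _ _ _ (Or.inl rfl) (Or.inr rfl) (Or.inl rfl))
    (hc _ _ _ (Or.inl rfl) (Or.inr rfl) (Or.inr rfl))
    (hc _ _ _ (Or.inr rfl) (Or.inl rfl) (Or.inl rfl))
    (hc _ _ _ (Or.inr rfl) (Or.inl rfl) (Or.inr rfl))
    (hc _ _ _ (Or.inr rfl) (Or.inr rfl) (Or.inl rfl))
    (hc _ _ _ (Or.inr rfl) (Or.inr rfl) (Or.inr rfl)) hm
  refine key.trans ?_
  simp only [bx]
  have e1 : (x * ((U1 : ℝ) / 64 - (U0 : ℝ) / 64) ^ 2 + y * ((P1 : ℝ) / 64 - (P0 : ℝ) / 64) ^ 2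
      + z * ((W1 : ℝ) / 64 - (W0 : ℝ) / 64) ^ 2) / 8 =
      2 ^ 64 * (x * ((U1 : ℝ) - U0) ^ 2 + y * ((P1 : ℝ) - P0) ^ 2 + z * ((W1 : ℝ) - W0) ^ 2)
        / (32768 * 2 ^ 64) := by
    field_simp
    ring
  rw [e1, ← add_div]
  apply div_nonpos_of_nonpos_of_nonneg
  · linarith
  · positivity

/-! Local curvature bounds. -/

lemma dist_le {lo hi : ℤ} {t : ℝ} (h1 : (lo : ℝ) / 64 ≤ t) (h2 : t ≤ (hi : ℝ) / 64) :
    ((dist lo hi : ℕ) : ℝ) / 64 ≤ |t| := by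
  unfold dist
  rcases le_total lo.toNat (-hi).toNat with h | h
  · rw [max_eq_right h]
    rcases le_total hi 0 with h0 | h0
    · have e1 : (((-hi).toNat : ℕ) : ℝ) = -(hi : ℝ) := by
        have : (((-hi).toNat : ℕ) : ℤ) = -hi := Int.toNat_of_nonneg (by omega)
        exact_mod_cast this
      rw [e1]
      have h3 : t ≤ 0 := by
        have : (hi : ℝ) ≤ 0 := by exact_mod_cast h0
        linarith
      rw [abs_of_nonpos h3]
      linarith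
    · have e1 : (-hi).toNat = 0 := by omega
      rw [e1]
      simp
  · rw [max_eq_left h]
    rcases le_total 0 lo with h0 | h0
    · have e1 : ((lo.toNat : ℕ) : ℝ) = (lo : ℝ) := by
        have : ((lo.toNat : ℕ) : ℤ) = lo := Int.toNat_of_nonneg h0
        exact_mod_cast this
      rw [e1]
      have h3 : 0 ≤ t := by
        have : (0 : ℝ) ≤ (lo : ℝ) := by exact_mod_cast h0
        linarith
      rw [abs_of_nonneg h3]
      linarith
    · have e1 : lo.toNat = 0 := by omega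
      rw [e1]
      simp

lemma s_le_tab {lo hi : ℤ} (hm : dist lo hi ≤ 2048) {t : ℝ} (ht : t ∈ Icc ((lo : ℝ) / 64) ((hi : ℝ) / 64)) :
    2 ^ 64 * s t ≤ (Ts (dist lo hi : ℕ) : ℝ) + 16 := by
  have h1 := dist_le ht.1 ht.2
  have h2 := s_abs_anti (by positivity) h1
  have h3 := Ts_spec ((dist lo hi : ℕ) : ℤ) (by simpa using hm)
  rw [abs_le] at h3
  have h4 := h3.2
  simp only [Int.cast_natCast] at h4
  have : (2 : ℝ) ^ 64 * s t ≤ 2 ^ 64 * s (((dist lo hi : ℕ) : ℝ) / 64) :=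
    mul_le_mul_of_nonneg_left h2 (by positivity)
  linarith

lemma SC_km {lo hi : ℤ} (hm : dist lo hi ≤ 2048) :
    SC ((km (dist lo hi) : ℝ) / 2 ^ 64) s (Icc ((lo : ℝ) / 64) ((hi : ℝ) / 64)) := by
  refine sc_of_deriv2 hasDerivAt_s hasDerivAt_sd (convex_Icc _ _) fun t ht => ?_
  have h1 := s_le_tab hm ht
  have h2 := sdd_ge t
  have h3 := sdd_ge' t
  unfold km
  rw [Int.cast_min]
  push_cast
  rcases min_cases (2305843009213693952 : ℝ) ((Ts (dist lo hi : ℕ) : ℝ) + 16) with ⟨h, _⟩ | ⟨h, _⟩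
  · rw [h]
    norm_num
    linarith
  · rw [h, neg_le, le_div_iff₀ (by positivity)]
    nlinarith

lemma SC_kp {lo hi : ℤ} (hm : dist lo hi ≤ 2048) :
    SC ((kp (dist lo hi) : ℝ) / 2 ^ 64) (fun t => -s t) (Icc ((lo : ℝ) / 64) ((hi : ℝ) / 64)) := by
  refine sc_of_deriv2 (fun x => (hasDerivAt_s x).neg) (fun x => (hasDerivAt_sd x).neg)
    (convex_Icc _ _) fun t ht => ?_
  have h1 := s_le_tab hm ht
  have h2 := sdd_le t
  have h3 := sdd_le' t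
  unfold kp
  rw [Int.cast_min]
  push_cast
  rcases min_cases (768614336404564651 : ℝ) ((Ts (dist lo hi : ℕ) : ℝ) + 16) with ⟨h, _⟩ | ⟨h, _⟩
  · rw [h]
    norm_num
    linarith
  · rw [h, neg_le_neg_iff, le_div_iff₀ (by positivity)]
    nlinarith

lemma SC_k3 {lo hi : ℤ} (hm : dist lo hi ≤ 2048) :
    SC ((k3 (dist lo hi) : ℝ) / 2 ^ 64) sd (Icc ((lo : ℝ) / 64) ((hi : ℝ) / 64)) := by
  refine sc_of_deriv2 hasDerivAt_sd hasDerivAt_sdd (convex_Icc _ _) fun t ht => ?_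
  have h1 := s_le_tab hm ht
  have h2 := (abs_le.1 (sd3_abs t)).1
  have h3 := (abs_le.1 (sd3_abs' t)).1
  unfold k3
  rw [Int.cast_min]
  push_cast
  rcases min_cases (2398076729582241711 : ℝ) ((Ts (dist lo hi : ℕ) : ℝ) + 16) with ⟨h, _⟩ | ⟨h, _⟩
  · rw [h]
    norm_num at h2 ⊢
    linarith
  · rw [h, neg_le, le_div_iff₀ (by positivity)]
    nlinarith

lemma SC_k3' {lo hi : ℤ} (hm : dist lo hi ≤ 2048) :
    SC ((k3 (dist lo hi) : ℝ) / 2 ^ 64) (fun t => -sd t) (Icc ((lo : ℝ) / 64) ((hi : ℝ) / 64)) := by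
  refine sc_of_deriv2 (fun x => (hasDerivAt_sd x).neg) (fun x => (hasDerivAt_sdd x).neg)
    (convex_Icc _ _) fun t ht => ?_
  have h1 := s_le_tab hm ht
  have h2 := (abs_le.1 (sd3_abs t)).2
  have h3 := (abs_le.1 (sd3_abs' t)).2
  unfold k3
  rw [Int.cast_min]
  push_cast
  rcases min_cases (2398076729582241711 : ℝ) ((Ts (dist lo hi : ℕ) : ℝ) + 16) with ⟨h, _⟩ | ⟨h, _⟩
  · rw [h]
    norm_num at h2 ⊢
    linarith
  · rw [h, neg_le_neg_iff, le_div_iff₀ (by positivity)]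
    nlinarith

lemma Ts_nonneg (n : ℤ) : 0 ≤ Ts n := by unfold Ts; exact Int.natCast_nonneg _

lemma km_nonneg (m : ℕ) : 0 ≤ km m := by unfold km; have := Ts_nonneg m; omega
lemma kp_nonneg (m : ℕ) : 0 ≤ kp m := by unfold kp; have := Ts_nonneg m; omega
lemma k3_nonneg (m : ℕ) : 0 ≤ k3 m := by unfold k3; have := Ts_nonneg m; omega

lemma Av_neg (g : ℝ → ℝ) (a b : ℝ) : Av (fun t => -g t) a b = -Av g a b := by
  unfold Av
  rw [← intervalIntegral.integral_neg]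
  congr 1
  funext τ
  ring

lemma Av6_neg (g : ℝ → ℝ) (a b : ℝ) : Av6 (fun t => -g t) a b = -Av6 g a b := by
  unfold Av6
  rw [← intervalIntegral.integral_neg]
  congr 1
  funext τ
  ring

lemma Av2_neg (g : ℝ → ℝ) (a b c d : ℝ) : Av2 (fun t => -g t) a b c d = -Av2 g a b c d := by
  unfold Av2
  rw [← intervalIntegral.integral_neg]
  congr 1
  funext τ
  rw [Av_neg]
  ring

/-- A function with both bounds, scaled by an integer coefficient. -/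
lemma TB.cur {f : ℝ → ℝ → ℝ → ℝ} {x y q : ℤ}
    (h : TB U0 U1 P0 P1 W0 W1 ((x * q : ℤ) : ℝ) f)
    (h' : TB U0 U1 P0 P1 W0 W1 ((y * q : ℤ) : ℝ) (fun u p w => -f u p w)) (c : ℤ) :
    TB U0 U1 P0 P1 W0 W1 ((B3.cur c x y * q : ℤ) : ℝ) (fun u p w => (c : ℝ) * f u p w) := by
  unfold B3.cur
  split_ifs with hc
  · have := h.smul (c := (c : ℝ)) (by exact_mod_cast hc)
    refine this.mono (le_of_eq ?_)
    push_cast
    ring
  · have := h'.smul (c := -(c : ℝ)) (by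
      have : (c : ℝ) ≤ 0 := by exact_mod_cast (not_le.1 hc).le
      linarith)
    refine (this.mono (le_of_eq ?_)).congr fun u p w => by ring
    push_cast
    ring

/-- membership in a real interval from integer bounds -/
lemma mem_lin {lo hi : ℤ} {x : ℝ} (h1 : (lo : ℝ) ≤ 64 * x) (h2 : 64 * x ≤ (hi : ℝ)) :
    x ∈ Icc ((lo : ℝ) / 64) ((hi : ℝ) / 64) :=
  ⟨by linarith, by linarith⟩

end Pool.Agent.helper26.B3
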