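import Pool.Agent.helper26.PS.Scalar

/-!
Finite dimensional data attached to a tripodal optimizer of the 2-star model (p = 2), written in
the variables `y_i = 2 β g_i + λ` (positions) and `m_i = 2 β w_i` (masses).
-/

namespace Pool.Agent.helper26.B3

open Real

/-- `log (1 + e^t)`. -/
noncomputable abbrev L (t : ℝ) : ℝ := PS.L t

/-- The logistic density `S' = S (1 - S)`. -/
noncomputable def s (t : ℝ) : ℝ := sigmoid t * (1 - sigmoid t)

/-- The derivative of `s`. -/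
noncomputable def sd (t : ℝ) : ℝ := s t * (1 - 2 * sigmoid t)

/-- `S(b) - S(a)`: the integral of `s` over `[a,b]`. -/
noncomputable def P (a b : ℝ) : ℝ := sigmoid b - sigmoid a

/-- The integral of `(x - c) s(x)` over `[a,b]`, where `c` is the midpoint. -/
noncomputable def C (a b : ℝ) : ℝ := (b - a) / 2 * (sigmoid a + sigmoid b) - (L b - L a)

/-- The double integral of `s(x+y)` over `[a,b] x [c,d]`. -/
noncomputable def W (a b c d : ℝ) : ℝ := L (b + d) - L (a + d) - L (b + c) + L (a + c)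

/-- What a tripodal optimizer provides. `y1 < y2 < y3` are the positions, `m1, m2, m3` the
masses. `E` and `A` say that `∑ m_j s(x+y_j)` has on each gap the mass and the mean of Lebesgue
measure, `a` is the second order condition for one atom, and `T` the second order condition for
moving the atom `y3` (or `y1`) together with mass exchanges (density `g1`, `g2` on the gaps). -/
structure Tri (y1 y2 y3 m1 m2 m3 : ℝ) : Prop where
  h12 : y1 < y2
  h23 : y2 < y3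
  m1pos : 0 < m1
  m2pos : 0 < m2
  m3pos : 0 < m3
  E1 : m1 * P (y1 + y1) (y2 + y1) + m2 * P (y1 + y2) (y2 + y2) + m3 * P (y1 + y3) (y2 + y3)
    = y2 - y1
  E2 : m1 * P (y2 + y1) (y3 + y1) + m2 * P (y2 + y2) (y3 + y2) + m3 * P (y2 + y3) (y3 + y3)
    = y3 - y2
  A1 : m1 * C (y1 + y1) (y2 + y1) + m2 * C (y1 + y2) (y2 + y2) + m3 * C (y1 + y3) (y2 + y3) = 0
  A2 : m1 * C (y2 + y1) (y3 + y1) + m2 * C (y2 + y2) (y3 + y2) + m3 * C (y2 + y3) (y3 + y3) = 0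
  a1 : m1 * s (y1 + y1) + m2 * s (y1 + y2) + m3 * s (y1 + y3) ≤ 1
  a2 : m1 * s (y2 + y1) + m2 * s (y2 + y2) + m3 * s (y2 + y3) ≤ 1
  a3 : m1 * s (y3 + y1) + m2 * s (y3 + y2) + m3 * s (y3 + y3) ≤ 1
  T3 : ∀ g1 g2 : ℝ, g1 * (y2 - y1) + g2 * (y3 - y2) =
      -(m1 * s (y3 + y1) + m2 * s (y3 + y2) + m3 * s (y3 + y3)) →
    m3 * (s (y3 + y3) + 2 * g1 * P (y1 + y3) (y2 + y3) + 2 * g2 * P (y2 + y3) (y3 + y3)
      + g1 ^ 2 * W y1 y2 y1 y2 + 2 * g1 * g2 * W y1 y2 y2 y3 + g2 ^ 2 * W y2 y3 y2 y3)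
      ≤ 1 - (m1 * s (y3 + y1) + m2 * s (y3 + y2) + m3 * s (y3 + y3))
  T1 : ∀ g1 g2 : ℝ, g1 * (y2 - y1) + g2 * (y3 - y2) =
      -(m1 * s (y1 + y1) + m2 * s (y1 + y2) + m3 * s (y1 + y3)) →
    m1 * (s (y1 + y1) + 2 * g1 * P (y1 + y1) (y2 + y1) + 2 * g2 * P (y2 + y1) (y3 + y1)
      + g1 ^ 2 * W y1 y2 y1 y2 + 2 * g1 * g2 * W y1 y2 y2 y3 + g2 ^ 2 * W y2 y3 y2 y3)
      ≤ 1 - (m1 * s (y1 + y1) + m2 * s (y1 + y2) + m3 * s (y1 + y3))

end Pool.Agent.helper26.B3
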