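import Pool.Agent.helper26.B3.TriAv
import Pool.Agent.helper26.B3.Check

/-!
The functions bounded on the boxes, in the coordinates `u, p, w` (so that `y1 = -p/2 - w`,
`y2 = -p/2`, `y3 = u + p/2`).
-/

namespace Pool.Agent.helper26.B3

open Real Set Q

/-- The linear combination for one atom, in terms of the three sums of positions `x0, x1, x2`. -/
noncomputable def FF (a b α β mu x0 x1 x2 : ℝ) : ℝ :=
  a * Av s x0 x1 + b * Av s x1 x2 + α * Av6 sd x0 x1 + β * Av6 sd x1 x2 - mu * s x2

/-- first atom -/
noncomputable def F1 (a b α β mu u p w : ℝ) : ℝ := FF a b α β mu (-p - 2 * w) (-p - w) (u - w)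

/-- second atom -/
noncomputable def F2 (a b α β mu u p w : ℝ) : ℝ := FF a b α β mu (-p - w) (-p) u

/-- third atom -/
noncomputable def F3 (a b α β mu lam g u p w : ℝ) : ℝ :=
  FF a b α β mu (u - w) u (2 * u + p) - lam * K0 g (-(p / 2) - w) (-(p / 2)) (u + p / 2)

/-- the derivative condition -/
noncomputable def GG (g k u p w : ℝ) : ℝ := G0 g k (-(p / 2) - w) (-(p / 2)) (u + p / 2)

end Pool.Agent.helper26.B3
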