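import Pool.Agent.helper26.B3.Avg

/-!
Averages of the logistic density over segments: closed forms and semiconvexity.
-/

namespace Pool.Agent.helper26.B3

open Real Set MeasureTheory intervalIntegral Q

/-- Average of `g` over the segment `[a,b]`. -/
noncomputable def Av (g : ℝ → ℝ) (a b : ℝ) : ℝ := ∫ τ in (0 : ℝ)..1, 1 * g ((1 - τ) * a + τ * b)

/-- Average of `g` over the segment `[a,b]` with weight `6 τ (1 - τ)`. -/
noncomputable def Av6 (g : ℝ → ℝ) (a b : ℝ) : ℝ :=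
  ∫ τ in (0 : ℝ)..1, (6 * τ * (1 - τ)) * g ((1 - τ) * a + τ * b)

/-- Average of `g (x + y)` over `[a,b] x [c,d]`. -/
noncomputable def Av2 (g : ℝ → ℝ) (a b c d : ℝ) : ℝ :=
  ∫ τ in (0 : ℝ)..1, 1 * Av g ((1 - τ) * a + τ * b + c) ((1 - τ) * a + τ * b + d)

lemma hasDerivAt_seg (a b τ : ℝ) : HasDerivAt (fun τ => (1 - τ) * a + τ * b) (b - a) τ := by
  have h := (((hasDerivAt_const τ (1 : ℝ)).sub (hasDerivAt_id' τ)).mul_const a).add
    ((hasDerivAt_id' τ).mul_const b)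
  exact h.congr_deriv (by ring)

lemma Av_s {a b : ℝ} (h : a ≠ b) : Av s a b = P a b / (b - a) := by
  have hd : b - a ≠ 0 := sub_ne_zero.2 h.symm
  unfold Av P
  have key : ∀ τ ∈ uIcc (0 : ℝ) 1,
      HasDerivAt (fun τ => sigmoid ((1 - τ) * a + τ * b) / (b - a))
        (1 * s ((1 - τ) * a + τ * b)) τ := by
    intro τ _
    have h1 := ((hasDerivAt_sig ((1 - τ) * a + τ * b)).comp τ (hasDerivAt_seg a b τ)).div_const
      (b - a)
    refine h1.congr_deriv ?_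
    field_simp
  rw [integral_eq_sub_of_hasDerivAt key]
  · norm_num
    ring
  · refine Continuous.intervalIntegrable ?_ _ _
    have := continuous_s
    fun_prop

lemma Av6_sd {a b : ℝ} (h : a ≠ b) : Av6 sd a b = 12 * C a b / (b - a) ^ 3 := by
  have hd : b - a ≠ 0 := sub_ne_zero.2 h.symm
  unfold Av6
  have key : ∀ τ ∈ uIcc (0 : ℝ) 1,
      HasDerivAt (fun τ => (6 * τ * (1 - τ)) * s ((1 - τ) * a + τ * b) / (b - a)
          - (6 - 12 * τ) * sigmoid ((1 - τ) * a + τ * b) / (b - a) ^ 2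
          - 12 * L ((1 - τ) * a + τ * b) / (b - a) ^ 3)
        ((6 * τ * (1 - τ)) * sd ((1 - τ) * a + τ * b)) τ := by
    intro τ _
    have hs := hasDerivAt_seg a b τ
    have e1 : HasDerivAt (fun τ : ℝ => 6 * τ * (1 - τ)) (6 - 12 * τ) τ := by
      have h := ((hasDerivAt_id' τ).const_mul 6).mul
        ((hasDerivAt_const τ (1 : ℝ)).sub (hasDerivAt_id' τ))
      exact h.congr_deriv (by simp only [Pi.sub_apply]; ring)
    have e2 : HasDerivAt (fun τ : ℝ => 6 - 12 * τ) (-12) τ := by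
      have h := (hasDerivAt_const τ (6 : ℝ)).sub ((hasDerivAt_id' τ).const_mul 12)
      exact h.congr_deriv (by ring)
    have h1 := (e1.mul ((hasDerivAt_s ((1 - τ) * a + τ * b)).comp τ hs)).div_const (b - a)
    have h2 := (e2.mul ((hasDerivAt_sig ((1 - τ) * a + τ * b)).comp τ hs)).div_const ((b - a) ^ 2)
    have h3 := (((hasDerivAt_L ((1 - τ) * a + τ * b)).comp τ hs).const_mul 12).div_const
      ((b - a) ^ 3)
    refine ((h1.sub h2).sub h3).congr_deriv ?_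
    simp only [Function.comp]
    field_simp
    ring
  rw [integral_eq_sub_of_hasDerivAt key]
  · unfold C
    norm_num
    field_simp
    ring
  · refine Continuous.intervalIntegrable ?_ _ _
    have := continuous_sd
    fun_prop

lemma Av2_s {a b c d : ℝ} (h : a ≠ b) (h' : c ≠ d) :
    Av2 s a b c d = W a b c d / ((b - a) * (d - c)) := by
  have hd : b - a ≠ 0 := sub_ne_zero.2 h.symm
  have hd' : d - c ≠ 0 := sub_ne_zero.2 h'.symm
  unfold Av2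
  have e : ∀ τ : ℝ, Av s ((1 - τ) * a + τ * b + c) ((1 - τ) * a + τ * b + d) =
      (sigmoid ((1 - τ) * a + τ * b + d) - sigmoid ((1 - τ) * a + τ * b + c)) / (d - c) := by
    intro τ
    rw [Av_s (by intro hh; exact h' (by linarith))]
    unfold P
    congr 1
    ring
  simp only [e]
  have key : ∀ τ ∈ uIcc (0 : ℝ) 1,
      HasDerivAt (fun τ => (L ((1 - τ) * a + τ * b + d) - L ((1 - τ) * a + τ * b + c)) /
          ((b - a) * (d - c)))
        (1 * ((sigmoid ((1 - τ) * a + τ * b + d) - sigmoid ((1 - τ) * a + τ * b + c)) /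
          (d - c))) τ := by
    intro τ _
    have hs := hasDerivAt_seg a b τ
    have h1 := (hasDerivAt_L ((1 - τ) * a + τ * b + d)).comp τ (hs.add_const d)
    have h2 := (hasDerivAt_L ((1 - τ) * a + τ * b + c)).comp τ (hs.add_const c)
    refine ((h1.sub h2).div_const _).congr_deriv ?_
    field_simp
  rw [integral_eq_sub_of_hasDerivAt key]
  · unfold W
    norm_num
    ring
  · refine Continuous.intervalIntegrable ?_ _ _
    have := continuous_sigmoid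
    fun_prop

lemma int_six : ∫ τ in (0 : ℝ)..1, 6 * τ * (1 - τ) = 1 := by
  have key : ∀ τ ∈ uIcc (0 : ℝ) 1,
      HasDerivAt (fun τ : ℝ => 3 * τ ^ 2 - 2 * τ ^ 3) (6 * τ * (1 - τ)) τ := by
    intro τ _
    have h := (((hasDerivAt_id' τ).pow 2).const_mul 3).sub (((hasDerivAt_id' τ).pow 3).const_mul 2)
    exact h.congr_deriv (by simp; ring)
  rw [integral_eq_sub_of_hasDerivAt key]
  · norm_num
  · exact Continuous.intervalIntegrable (by fun_prop) _ _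

lemma sq_comb {x y M τ : ℝ} (h0 : 0 ≤ τ) (h1 : τ ≤ 1) (hx : x ^ 2 ≤ M) (hy : y ^ 2 ≤ M) :
    ((1 - τ) * x + τ * y) ^ 2 ≤ M := by
  have h : 0 ≤ τ * (1 - τ) := mul_nonneg h0 (by linarith)
  nlinarith [mul_nonneg h (sq_nonneg (x - y))]

section avg
variable {B : Box} {κ : ℝ} {g : ℝ → ℝ} {J : Set ℝ} {a1 a2 a3 b1 b2 b3 M1 M2 M3 : ℝ}

lemma seg_SC3 (h : SC κ g J) (hJ : Convex ℝ J) (hk : 0 ≤ κ)
    (ha : ∀ u p w, B.mem u p w → a1 * u + a2 * p + a3 * w ∈ J)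
    (hb : ∀ u p w, B.mem u p w → b1 * u + b2 * p + b3 * w ∈ J)
    (h1 : a1 ^ 2 ≤ M1) (h1' : b1 ^ 2 ≤ M1) (h2 : a2 ^ 2 ≤ M2) (h2' : b2 ^ 2 ≤ M2)
    (h3 : a3 ^ 2 ≤ M3) (h3' : b3 ^ 2 ≤ M3) {τ : ℝ} (t0 : 0 ≤ τ) (t1 : τ ≤ 1) :
    SC3 B (κ * M1) (κ * M2) (κ * M3) (fun u p w =>
      g ((1 - τ) * (a1 * u + a2 * p + a3 * w) + τ * (b1 * u + b2 * p + b3 * w))) := by
  have key := SC3.comp (B := B) h ((1 - τ) * a1 + τ * b1) ((1 - τ) * a2 + τ * b2)
    ((1 - τ) * a3 + τ * b3) (fun u p w hm => by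
      have := hJ (ha u p w hm) (hb u p w hm) (sub_nonneg.2 t1) t0 (by ring)
      simp only [smul_eq_mul] at this
      convert this using 1
      ring)
  have e : (fun u p w => g ((1 - τ) * (a1 * u + a2 * p + a3 * w) +
      τ * (b1 * u + b2 * p + b3 * w))) = (fun u p w : ℝ => g (((1 - τ) * a1 + τ * b1) * u +
        ((1 - τ) * a2 + τ * b2) * p + ((1 - τ) * a3 + τ * b3) * w)) := by
    funext u p w
    congr 1
    ring
  rw [e]
  exact key.mono (mul_le_mul_of_nonneg_left (sq_comb t0 t1 h1 h1') hk)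
    (mul_le_mul_of_nonneg_left (sq_comb t0 t1 h2 h2') hk)
    (mul_le_mul_of_nonneg_left (sq_comb t0 t1 h3 h3') hk)

lemma Av_SC3 (hg : Continuous g) (h : SC κ g J) (hJ : Convex ℝ J) (hk : 0 ≤ κ)
    (ha : ∀ u p w, B.mem u p w → a1 * u + a2 * p + a3 * w ∈ J)
    (hb : ∀ u p w, B.mem u p w → b1 * u + b2 * p + b3 * w ∈ J)
    (h1 : a1 ^ 2 ≤ M1) (h1' : b1 ^ 2 ≤ M1) (h2 : a2 ^ 2 ≤ M2) (h2' : b2 ^ 2 ≤ M2)
    (h3 : a3 ^ 2 ≤ M3) (h3' : b3 ^ 2 ≤ M3) :
    SC3 B (κ * M1) (κ * M2) (κ * M3) (fun u p w =>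
      Av g (a1 * u + a2 * p + a3 * w) (b1 * u + b2 * p + b3 * w)) := by
  unfold Av
  refine SC3.avg (k := fun _ => 1) (fun _ _ => zero_le_one) continuous_const (by simp)
    (fun u p w => by fun_prop) fun τ hτ => ?_
  exact seg_SC3 h hJ hk ha hb h1 h1' h2 h2' h3 h3' hτ.1 hτ.2

lemma Av6_SC3 (hg : Continuous g) (h : SC κ g J) (hJ : Convex ℝ J) (hk : 0 ≤ κ)
    (ha : ∀ u p w, B.mem u p w → a1 * u + a2 * p + a3 * w ∈ J)
    (hb : ∀ u p w, B.mem u p w → b1 * u + b2 * p + b3 * w ∈ J)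
    (h1 : a1 ^ 2 ≤ M1) (h1' : b1 ^ 2 ≤ M1) (h2 : a2 ^ 2 ≤ M2) (h2' : b2 ^ 2 ≤ M2)
    (h3 : a3 ^ 2 ≤ M3) (h3' : b3 ^ 2 ≤ M3) :
    SC3 B (κ * M1) (κ * M2) (κ * M3) (fun u p w =>
      Av6 g (a1 * u + a2 * p + a3 * w) (b1 * u + b2 * p + b3 * w)) := by
  unfold Av6
  refine SC3.avg (k := fun τ => 6 * τ * (1 - τ)) (fun τ hτ => ?_) (by fun_prop) int_six
    (fun u p w => by fun_prop) fun τ hτ => ?_
  · exact mul_nonneg (by linarith [hτ.1]) (by linarith [hτ.2])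
  · exact seg_SC3 h hJ hk ha hb h1 h1' h2 h2' h3 h3' hτ.1 hτ.2

lemma continuous_Av (hg : Continuous g) {a b : ℝ → ℝ} (ha : Continuous a) (hb : Continuous b) :
    Continuous fun τ => Av g (a τ) (b τ) := by
  unfold Av
  refine intervalIntegral.continuous_parametric_intervalIntegral_of_continuous'
    (f := fun τ σ => 1 * g ((1 - σ) * a τ + σ * b τ)) ?_ 0 1
  fun_prop

lemma Av2_SC3 {c1 c2 c3 d1 d2 d3 : ℝ} (hg : Continuous g) (h : SC κ g J) (hJ : Convex ℝ J)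
    (hk : 0 ≤ κ)
    (hac : ∀ u p w, B.mem u p w → (a1 + c1) * u + (a2 + c2) * p + (a3 + c3) * w ∈ J)
    (hbc : ∀ u p w, B.mem u p w → (b1 + c1) * u + (b2 + c2) * p + (b3 + c3) * w ∈ J)
    (had : ∀ u p w, B.mem u p w → (a1 + d1) * u + (a2 + d2) * p + (a3 + d3) * w ∈ J)
    (hbd : ∀ u p w, B.mem u p w → (b1 + d1) * u + (b2 + d2) * p + (b3 + d3) * w ∈ J)
    (h1 : (a1 + c1) ^ 2 ≤ M1) (h1' : (b1 + c1) ^ 2 ≤ M1) (h1'' : (a1 + d1) ^ 2 ≤ M1)
    (h1''' : (b1 + d1) ^ 2 ≤ M1)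
    (h2 : (a2 + c2) ^ 2 ≤ M2) (h2' : (b2 + c2) ^ 2 ≤ M2) (h2'' : (a2 + d2) ^ 2 ≤ M2)
    (h2''' : (b2 + d2) ^ 2 ≤ M2)
    (h3 : (a3 + c3) ^ 2 ≤ M3) (h3' : (b3 + c3) ^ 2 ≤ M3) (h3'' : (a3 + d3) ^ 2 ≤ M3)
    (h3''' : (b3 + d3) ^ 2 ≤ M3) :
    SC3 B (κ * M1) (κ * M2) (κ * M3) (fun u p w =>
      Av2 g (a1 * u + a2 * p + a3 * w) (b1 * u + b2 * p + b3 * w)
        (c1 * u + c2 * p + c3 * w) (d1 * u + d2 * p + d3 * w)) := by
  unfold Av2
  refine SC3.avg (k := fun _ => 1)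
    (f := fun τ u p w => Av g
      ((1 - τ) * (a1 * u + a2 * p + a3 * w) + τ * (b1 * u + b2 * p + b3 * w)
        + (c1 * u + c2 * p + c3 * w))
      ((1 - τ) * (a1 * u + a2 * p + a3 * w) + τ * (b1 * u + b2 * p + b3 * w)
        + (d1 * u + d2 * p + d3 * w)))
    (fun _ _ => zero_le_one) continuous_const (by simp)
    (fun u p w => continuous_Av hg (by fun_prop) (by fun_prop)) fun τ hτ => ?_
  have comb : ∀ x y z M : ℝ, (x + z) ^ 2 ≤ M → (y + z) ^ 2 ≤ M →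
      ((1 - τ) * x + τ * y + z) ^ 2 ≤ M := by
    intro x y z M hx hy
    have := sq_comb hτ.1 hτ.2 hx hy
    have e : (1 - τ) * (x + z) + τ * (y + z) = (1 - τ) * x + τ * y + z := by ring
    rwa [e] at this
  have memJ : ∀ {x y : ℝ}, x ∈ J → y ∈ J → (1 - τ) * x + τ * y ∈ J := by
    intro x y hx hy
    have := hJ hx hy (sub_nonneg.2 hτ.2) hτ.1 (by ring)
    simpa only [smul_eq_mul] using this
  have key := Av_SC3 (B := B) (a1 := (1 - τ) * a1 + τ * b1 + c1) (a2 := (1 - τ) * a2 + τ * b2 + c2)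
    (a3 := (1 - τ) * a3 + τ * b3 + c3) (b1 := (1 - τ) * a1 + τ * b1 + d1)
    (b2 := (1 - τ) * a2 + τ * b2 + d2) (b3 := (1 - τ) * a3 + τ * b3 + d3)
    (M1 := M1) (M2 := M2) (M3 := M3) hg h hJ hk
    (fun u p w hm => by
      have := memJ (hac u p w hm) (hbc u p w hm)
      convert this using 1
      ring)
    (fun u p w hm => by
      have := memJ (had u p w hm) (hbd u p w hm)
      convert this using 1
      ring)
    (comb _ _ _ _ h1 h1') (comb _ _ _ _ h1'' h1''') (comb _ _ _ _ h2 h2')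
    (comb _ _ _ _ h2'' h2''') (comb _ _ _ _ h3 h3') (comb _ _ _ _ h3'' h3''')
  have e : (fun u p w => Av g
      ((1 - τ) * (a1 * u + a2 * p + a3 * w) + τ * (b1 * u + b2 * p + b3 * w)
        + (c1 * u + c2 * p + c3 * w))
      ((1 - τ) * (a1 * u + a2 * p + a3 * w) + τ * (b1 * u + b2 * p + b3 * w)
        + (d1 * u + d2 * p + d3 * w))) = (fun u p w : ℝ => Av g
      (((1 - τ) * a1 + τ * b1 + c1) * u + ((1 - τ) * a2 + τ * b2 + c2) * p
        + ((1 - τ) * a3 + τ * b3 + c3) * w)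
      (((1 - τ) * a1 + τ * b1 + d1) * u + ((1 - τ) * a2 + τ * b2 + d2) * p
        + ((1 - τ) * a3 + τ * b3 + d3) * w)) := by
    funext u p w
    congr 1 <;> ring
  rw [e]
  exact key

end avg

end Pool.Agent.helper26.B3
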