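import Pool.Agent.helper26.B3.Terms

/-!
Soundness of the check of one box.
-/

namespace Pool.Agent.helper26.B3

open Real Set Q

/-- What the corner check gives. -/
def CornerSpec : Prop := ∀ a b c d mu lam g k E1 E2 E3 EG U P W : ℤ,
  corner a b c d mu lam g k E1 E2 E3 EG U P W = true →
  0 ≤ U → 0 ≤ P → -64 ≤ W → P + 2 * W ≤ 2048 → 2 * U + P ≤ 2048 → 0 ≤ lam →
  (F1 a b c d mu ((U : ℝ) / 64) ((P : ℝ) / 64) ((W : ℝ) / 64) ≤ -(E1 : ℝ) / (32768 * 2 ^ 64)) ∧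
  (F2 a b c d mu ((U : ℝ) / 64) ((P : ℝ) / 64) ((W : ℝ) / 64) ≤ -(E2 : ℝ) / (32768 * 2 ^ 64)) ∧
  (F3 a b c d mu lam g ((U : ℝ) / 64) ((P : ℝ) / 64) ((W : ℝ) / 64) ≤
    -(E3 : ℝ) / (32768 * 2 ^ 64)) ∧
  (0 < lam → (EG : ℝ) / (32768 * 2 ^ 64) ≤ GG g k ((U : ℝ) / 64) ((P : ℝ) / 64) ((W : ℝ) / 64))

section defs
variable (U0 U1 P0 P1 W0 W1 a b c d mu lam g k : ℤ)

/-- curvature of `F1` -/
def e1f : ℤ :=
  let dU := (U1 - U0) * (U1 - U0)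
  let dP := (P1 - P0) * (P1 - P0)
  let dW := (W1 - W0) * (W1 - W0)
  let qA := dP + 4 * dW
  let qC := dU + dW
  let qD := dU + dP + dW
  let m11 := dist (min (-P1 - 2 * W1) (-P1 - W1)) (max (-P0 - 2 * W0) (-P0 - W0))
  let m21 := dist (min (-P1 - W1) (U0 - W1)) (max (-P0 - W0) (U1 - W0))
  let n13 := dist (U0 - W1) (U1 - W0)
  cur a (km m11) (kp m11) * qA + cur b (km m21) (kp m21) * qD
    + cur c (k3 m11) (k3 m11) * qA + cur d (k3 m21) (k3 m21) * qD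
    + cur (-mu) (km n13) (kp n13) * qC

/-- curvature of `F2` -/
def e2f : ℤ :=
  let dU := (U1 - U0) * (U1 - U0)
  let dP := (P1 - P0) * (P1 - P0)
  let dW := (W1 - W0) * (W1 - W0)
  let qB := dP + dW
  let qE := dU + dP
  let m12 := dist (min (-P1 - W1) (-P1)) (max (-P0 - W0) (-P0))
  let m22 := dist (-P1) U1
  let n23 := dist U0 U1
  cur a (km m12) (kp m12) * qB + cur b (km m22) (kp m22) * qE
    + cur c (k3 m12) (k3 m12) * qB + cur d (k3 m22) (k3 m22) * qE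
    + cur (-mu) (km n23) (kp n23) * dU

/-- curvature of `F3` -/
def e3f : ℤ :=
  let dU := (U1 - U0) * (U1 - U0)
  let dP := (P1 - P0) * (P1 - P0)
  let dW := (W1 - W0) * (W1 - W0)
  let qA := dP + 4 * dW
  let qC := dU + dW
  let qD := dU + dP + dW
  let qF := 4 * dU + dP
  let m13 := dist (min (U0 - W1) U0) (max (U1 - W0) U1)
  let m23 := dist U0 (2 * U1 + P1)
  let n33 := dist (2 * U0 + P0) (2 * U1 + P1)
  let E3 := cur a (km m13) (kp m13) * qC + cur b (km m23) (kp m23) * qF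
    + cur c (k3 m13) (k3 m13) * qC + cur d (k3 m23) (k3 m23) * qF
    + cur (-mu) (km n33) (kp n33) * qF
  let h := 32 + g
  let w11 := dist (min (-P1 - 2 * W1) (min (-P1 - W1) (-P1))) (max (-P0 - 2 * W0) (max (-P0 - W0) (-P0)))
  let w12 := dist (min (-P1 - W1) (min (U0 - W1) (-P1))) (max (-P0 - W0) (max (U1 - W0) U1))
  let w22 := dist (-P1) (2 * U1 + P1)
  E3 + lam * (cur (-1024) (km n33) (kp n33) * qF + cur (64 * h) (km m23) (kp m23) * qF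
    + cur (-(64 * g)) (km m13) (kp m13) * qC + cur (-(h * h)) (km w22) (kp w22) * qF
    + cur (2 * g * h) (km w12) (kp w12) * qD + cur (-(g * g)) (km w11) (kp w11) * qA)

/-- curvature of `-GG` -/
def egf : ℤ :=
  let dU := (U1 - U0) * (U1 - U0)
  let dP := (P1 - P0) * (P1 - P0)
  let dW := (W1 - W0) * (W1 - W0)
  let qA := dP + 4 * dW
  let qC := dU + dW
  let qD := dU + dP + dW
  let m13 := dist (min (U0 - W1) U0) (max (U1 - W0) U1)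
  let h := 32 + g
  let w11 := dist (min (-P1 - 2 * W1) (min (-P1 - W1) (-P1))) (max (-P0 - 2 * W0) (max (-P0 - W0) (-P0)))
  let w12 := dist (min (-P1 - W1) (min (U0 - W1) (-P1))) (max (-P0 - W0) (max (U1 - W0) U1))
  cur (-(32 * (2048 + k))) (km m13) (kp m13) * qC
    + cur (2048 * h) (km w12) (kp w12) * qD + cur (-(2048 * g)) (km w11) (kp w11) * qA

/-- the corner check with the curvatures of the box -/
def ckf (U P W : ℤ) : Bool :=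
  corner a b c d mu lam g k (e1f U0 U1 P0 P1 W0 W1 a b c d mu) (e2f U0 U1 P0 P1 W0 W1 a b c d mu)
    (e3f U0 U1 P0 P1 W0 W1 a b c d mu lam g) (egf U0 U1 P0 P1 W0 W1 g k) U P W

end defs

variable {U0 U1 P0 P1 W0 W1 a b c d mu lam g k : ℤ}

lemma leafOK_spec (h : leafOK U0 U1 P0 P1 W0 W1 a b c d mu lam g k = true) :
    (0 ≤ lam ∧ 0 ≤ k ∧ lam * (1024 + k) ≤ mu ∧ mu < a + b) ∧
    (U0 ≤ U1 ∧ P0 ≤ P1 ∧ W0 ≤ W1 ∧ 0 ≤ U0 ∧ 0 ≤ P0 ∧ -64 ≤ W0 ∧ P1 + 2 * W1 ≤ 2048 ∧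
      2 * U1 + P1 ≤ 2048) ∧
    (∀ U P W : ℤ, (U = U0 ∨ U = U1) → (P = P0 ∨ P = P1) → (W = W0 ∨ W = W1) →
      ckf U0 U1 P0 P1 W0 W1 a b c d mu lam g k U P W = true) := by
  have e : leafOK U0 U1 P0 P1 W0 W1 a b c d mu lam g k = (
    decide (0 ≤ lam) && decide (0 ≤ k) && decide (lam * (1024 + k) ≤ mu) && decide (mu < a + b) &&
    decide (U0 ≤ U1) && decide (P0 ≤ P1) && decide (W0 ≤ W1) &&
    decide (0 ≤ U0) && decide (0 ≤ P0) && decide (-64 ≤ W0) &&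
    decide (P1 + 2 * W1 ≤ 2048) && decide (2 * U1 + P1 ≤ 2048) &&
    ckf U0 U1 P0 P1 W0 W1 a b c d mu lam g k U0 P0 W0 &&
    ckf U0 U1 P0 P1 W0 W1 a b c d mu lam g k U0 P0 W1 &&
    ckf U0 U1 P0 P1 W0 W1 a b c d mu lam g k U0 P1 W0 &&
    ckf U0 U1 P0 P1 W0 W1 a b c d mu lam g k U0 P1 W1 &&
    ckf U0 U1 P0 P1 W0 W1 a b c d mu lam g k U1 P0 W0 &&
    ckf U0 U1 P0 P1 W0 W1 a b c d mu lam g k U1 P0 W1 &&
    ckf U0 U1 P0 P1 W0 W1 a b c d mu lam g k U1 P1 W0 &&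
    ckf U0 U1 P0 P1 W0 W1 a b c d mu lam g k U1 P1 W1) := rfl
  rw [e] at h
  simp only [Bool.and_eq_true, decide_eq_true_eq] at h
  obtain ⟨⟨⟨⟨⟨⟨⟨⟨⟨⟨⟨⟨⟨⟨⟨⟨⟨⟨⟨h1, h2⟩, h3⟩, h4⟩, h5⟩, h6⟩, h7⟩, h8⟩, h9⟩, h10⟩, h11⟩, h12⟩, c1⟩, c2⟩, c3⟩,
    c4⟩, c5⟩, c6⟩, c7⟩, c8⟩ := h
  refine ⟨⟨h1, h2, h3, h4⟩, ⟨h5, h6, h7, h8, h9, h10, h11, h12⟩, ?_⟩
  rintro U P W (rfl | rfl) (rfl | rfl) (rfl | rfl) <;> assumption

end Pool.Agent.helper26.B3
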