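import Pool.Agent.helper26.B3.Leaf

/-!
Curvature of `F1, F2, F3, GG` on an integer box; soundness of the leaf check.
-/

namespace Pool.Agent.helper26.B3

open Real Set Q

variable {U0 U1 P0 P1 W0 W1 a b c d mu lam g k : ℤ}

/-- the conditions on a box -/
structure BC (U0 U1 P0 P1 W0 W1 : ℤ) : Prop where
  hu : U0 ≤ U1
  hp : P0 ≤ P1
  hw : W0 ≤ W1
  hu0 : 0 ≤ U0
  hp0 : 0 ≤ P0
  hw0 : -64 ≤ W0
  h1 : P1 + 2 * W1 ≤ 2048
  h2 : 2 * U1 + P1 ≤ 2048

section
variable (B : BC U0 U1 P0 P1 W0 W1)

lemma TB_F1 (B : BC U0 U1 P0 P1 W0 W1) :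
    TB U0 U1 P0 P1 W0 W1 ((e1f U0 U1 P0 P1 W0 W1 a b c d mu : ℤ) : ℝ)
      (fun u p w => F1 a b c d mu u p w) := by
  obtain ⟨hu, hp, hw, hu0, hp0, hw0, hb1, hb2⟩ := B
  have cu : (U0 : ℝ) ≤ U1 := by exact_mod_cast hu
  have cp : (P0 : ℝ) ≤ P1 := by exact_mod_cast hp
  have cw : (W0 : ℝ) ≤ W1 := by exact_mod_cast hw
  have cu0 : (0 : ℝ) ≤ U0 := by exact_mod_cast hu0
  have cp0 : (0 : ℝ) ≤ P0 := by exact_mod_cast hp0
  have t1 := TB.term_Av (U0 := U0) (U1 := U1) (P0 := P0) (P1 := P1) (W0 := W0) (W1 := W1)
    (lo := min (-P1 - 2 * W1) (-P1 - W1)) (hi := max (-P0 - 2 * W0) (-P0 - W0))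
    (x0 := fun u p w => -p - 2 * w) (x1 := fun u p w => -p - w) (M1 := 0) (M2 := 1) (M3 := 4)
    (q := (P1 - P0) * (P1 - P0) + 4 * ((W1 - W0) * (W1 - W0))) a
    (by unfold dist; omega) 0 (-1) (-2) 0 (-1) (-1) (by intros; ring) (by intros; ring) (by
      rintro u p w ⟨⟨hu0, hu1⟩, ⟨hp0, hp1⟩, hw0, hw1⟩
      simp only [bx] at hu0 hu1 hp0 hp1 hw0 hw1
      push_cast
      try simp only [min_le_iff, le_max_iff]
      constructor <;> first
        | linarith
        | (left; linarith)
        | (right; linarith)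
        | (right; left; linarith)
        | (right; right; linarith))
    (by
      rintro u p w ⟨⟨hu0, hu1⟩, ⟨hp0, hp1⟩, hw0, hw1⟩
      simp only [bx] at hu0 hu1 hp0 hp1 hw0 hw1
      push_cast
      try simp only [min_le_iff, le_max_iff]
      constructor <;> first
        | linarith
        | (left; linarith)
        | (right; linarith)
        | (right; left; linarith)
        | (right; right; linarith)) (by norm_num) (by norm_num) (by norm_num) (by norm_num) (by norm_num) (by norm_num)
    (by ring)
  have t3 := TB.term_Av6 (U0 := U0) (U1 := U1) (P0 := P0) (P1 := P1) (W0 := W0) (W1 := W1)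
    (lo := min (-P1 - 2 * W1) (-P1 - W1)) (hi := max (-P0 - 2 * W0) (-P0 - W0))
    (x0 := fun u p w => -p - 2 * w) (x1 := fun u p w => -p - w) (M1 := 0) (M2 := 1) (M3 := 4)
    (q := (P1 - P0) * (P1 - P0) + 4 * ((W1 - W0) * (W1 - W0))) c
    (by unfold dist; omega) 0 (-1) (-2) 0 (-1) (-1) (by intros; ring) (by intros; ring) (by
      rintro u p w ⟨⟨hu0, hu1⟩, ⟨hp0, hp1⟩, hw0, hw1⟩
      simp only [bx] at hu0 hu1 hp0 hp1 hw0 hw1
      push_cast
      try simp only [min_le_iff, le_max_iff]
      constructor <;> first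
        | linarith
        | (left; linarith)
        | (right; linarith)
        | (right; left; linarith)
        | (right; right; linarith))
    (by
      rintro u p w ⟨⟨hu0, hu1⟩, ⟨hp0, hp1⟩, hw0, hw1⟩
      simp only [bx] at hu0 hu1 hp0 hp1 hw0 hw1
      push_cast
      try simp only [min_le_iff, le_max_iff]
      constructor <;> first
        | linarith
        | (left; linarith)
        | (right; linarith)
        | (right; left; linarith)
        | (right; right; linarith)) (by norm_num) (by norm_num) (by norm_num) (by norm_num) (by norm_num) (by norm_num)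
    (by ring)
  have t2 := TB.term_Av (U0 := U0) (U1 := U1) (P0 := P0) (P1 := P1) (W0 := W0) (W1 := W1)
    (lo := min (-P1 - W1) (U0 - W1)) (hi := max (-P0 - W0) (U1 - W0))
    (x0 := fun u p w => -p - w) (x1 := fun u p w => u - w) (M1 := 1) (M2 := 1) (M3 := 1)
    (q := (U1 - U0) * (U1 - U0) + (P1 - P0) * (P1 - P0) + (W1 - W0) * (W1 - W0)) b
    (by unfold dist; omega) 0 (-1) (-1) 1 0 (-1) (by intros; ring) (by intros; ring) (by
      rintro u p w ⟨⟨hu0, hu1⟩, ⟨hp0, hp1⟩, hw0, hw1⟩
      simp only [bx] at hu0 hu1 hp0 hp1 hw0 hw1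
      push_cast
      try simp only [min_le_iff, le_max_iff]
      constructor <;> first
        | linarith
        | (left; linarith)
        | (right; linarith)
        | (right; left; linarith)
        | (right; right; linarith))
    (by
      rintro u p w ⟨⟨hu0, hu1⟩, ⟨hp0, hp1⟩, hw0, hw1⟩
      simp only [bx] at hu0 hu1 hp0 hp1 hw0 hw1
      push_cast
      try simp only [min_le_iff, le_max_iff]
      constructor <;> first
        | linarith
        | (left; linarith)
        | (right; linarith)
        | (right; left; linarith)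
        | (right; right; linarith)) (by norm_num) (by norm_num) (by norm_num) (by norm_num) (by norm_num) (by norm_num)
    (by ring)
  have t4 := TB.term_Av6 (U0 := U0) (U1 := U1) (P0 := P0) (P1 := P1) (W0 := W0) (W1 := W1)
    (lo := min (-P1 - W1) (U0 - W1)) (hi := max (-P0 - W0) (U1 - W0))
    (x0 := fun u p w => -p - w) (x1 := fun u p w => u - w) (M1 := 1) (M2 := 1) (M3 := 1)
    (q := (U1 - U0) * (U1 - U0) + (P1 - P0) * (P1 - P0) + (W1 - W0) * (W1 - W0)) d
    (by unfold dist; omega) 0 (-1) (-1) 1 0 (-1) (by intros; ring) (by intros; ring) (by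
      rintro u p w ⟨⟨hu0, hu1⟩, ⟨hp0, hp1⟩, hw0, hw1⟩
      simp only [bx] at hu0 hu1 hp0 hp1 hw0 hw1
      push_cast
      try simp only [min_le_iff, le_max_iff]
      constructor <;> first
        | linarith
        | (left; linarith)
        | (right; linarith)
        | (right; left; linarith)
        | (right; right; linarith))
    (by
      rintro u p w ⟨⟨hu0, hu1⟩, ⟨hp0, hp1⟩, hw0, hw1⟩
      simp only [bx] at hu0 hu1 hp0 hp1 hw0 hw1
      push_cast
      try simp only [min_le_iff, le_max_iff]
      constructor <;> first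
        | linarith
        | (left; linarith)
        | (right; linarith)
        | (right; left; linarith)
        | (right; right; linarith)) (by norm_num) (by norm_num) (by norm_num) (by norm_num) (by norm_num) (by norm_num)
    (by ring)
  have t5 := TB.term_s (U0 := U0) (U1 := U1) (P0 := P0) (P1 := P1) (W0 := W0) (W1 := W1)
    (lo := U0 - W1) (hi := U1 - W0) (x0 := fun u p w => u - w) (M1 := 1) (M2 := 0) (M3 := 1)
    (q := (U1 - U0) * (U1 - U0) + (W1 - W0) * (W1 - W0)) (-mu)
    (by unfold dist; omega) 1 0 (-1) (by intros; ring) (by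
      rintro u p w ⟨⟨hu0, hu1⟩, ⟨hp0, hp1⟩, hw0, hw1⟩
      simp only [bx] at hu0 hu1 hp0 hp1 hw0 hw1
      push_cast
      try simp only [min_le_iff, le_max_iff]
      constructor <;> first
        | linarith
        | (left; linarith)
        | (right; linarith)
        | (right; left; linarith)
        | (right; right; linarith))
    (by norm_num) (by norm_num) (by norm_num) (by ring)
  refine ((((t1.add t2).add t3).add t4).add t5).mono (le_of_eq ?_) |>.congr fun u p w => ?_
  · unfold e1f
    simp only [Int.cast_add]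
  · unfold F1 FF
    push_cast
    ring

lemma TB_F2 (B : BC U0 U1 P0 P1 W0 W1) :
    TB U0 U1 P0 P1 W0 W1 ((e2f U0 U1 P0 P1 W0 W1 a b c d mu : ℤ) : ℝ)
      (fun u p w => F2 a b c d mu u p w) := by
  obtain ⟨hu, hp, hw, hu0, hp0, hw0, hb1, hb2⟩ := B
  have cu : (U0 : ℝ) ≤ U1 := by exact_mod_cast hu
  have cp : (P0 : ℝ) ≤ P1 := by exact_mod_cast hp
  have cw : (W0 : ℝ) ≤ W1 := by exact_mod_cast hw
  have cu0 : (0 : ℝ) ≤ U0 := by exact_mod_cast hu0
  have cp0 : (0 : ℝ) ≤ P0 := by exact_mod_cast hp0
  have t1 := TB.term_Av (U0 := U0) (U1 := U1) (P0 := P0) (P1 := P1) (W0 := W0) (W1 := W1)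
    (lo := min (-P1 - W1) (-P1)) (hi := max (-P0 - W0) (-P0))
    (x0 := fun u p w => -p - w) (x1 := fun u p w => -p) (M1 := 0) (M2 := 1) (M3 := 1)
    (q := (P1 - P0) * (P1 - P0) + (W1 - W0) * (W1 - W0)) a
    (by unfold dist; omega) 0 (-1) (-1) 0 (-1) 0 (by intros; ring) (by intros; ring) (by
      rintro u p w ⟨⟨hu0, hu1⟩, ⟨hp0, hp1⟩, hw0, hw1⟩
      simp only [bx] at hu0 hu1 hp0 hp1 hw0 hw1
      push_cast
      try simp only [min_le_iff, le_max_iff]
      constructor <;> first
        | linarith
        | (left; linarith)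
        | (right; linarith)
        | (right; left; linarith)
        | (right; right; linarith))
    (by
      rintro u p w ⟨⟨hu0, hu1⟩, ⟨hp0, hp1⟩, hw0, hw1⟩
      simp only [bx] at hu0 hu1 hp0 hp1 hw0 hw1
      push_cast
      try simp only [min_le_iff, le_max_iff]
      constructor <;> first
        | linarith
        | (left; linarith)
        | (right; linarith)
        | (right; left; linarith)
        | (right; right; linarith)) (by norm_num) (by norm_num) (by norm_num) (by norm_num) (by norm_num) (by norm_num)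
    (by ring)
  have t3 := TB.term_Av6 (U0 := U0) (U1 := U1) (P0 := P0) (P1 := P1) (W0 := W0) (W1 := W1)
    (lo := min (-P1 - W1) (-P1)) (hi := max (-P0 - W0) (-P0))
    (x0 := fun u p w => -p - w) (x1 := fun u p w => -p) (M1 := 0) (M2 := 1) (M3 := 1)
    (q := (P1 - P0) * (P1 - P0) + (W1 - W0) * (W1 - W0)) c
    (by unfold dist; omega) 0 (-1) (-1) 0 (-1) 0 (by intros; ring) (by intros; ring) (by
      rintro u p w ⟨⟨hu0, hu1⟩, ⟨hp0, hp1⟩, hw0, hw1⟩
      simp only [bx] at hu0 hu1 hp0 hp1 hw0 hw1
      push_cast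
      try simp only [min_le_iff, le_max_iff]
      constructor <;> first
        | linarith
        | (left; linarith)
        | (right; linarith)
        | (right; left; linarith)
        | (right; right; linarith))
    (by
      rintro u p w ⟨⟨hu0, hu1⟩, ⟨hp0, hp1⟩, hw0, hw1⟩
      simp only [bx] at hu0 hu1 hp0 hp1 hw0 hw1
      push_cast
      try simp only [min_le_iff, le_max_iff]
      constructor <;> first
        | linarith
        | (left; linarith)
        | (right; linarith)
        | (right; left; linarith)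
        | (right; right; linarith)) (by norm_num) (by norm_num) (by norm_num) (by norm_num) (by norm_num) (by norm_num)
    (by ring)
  have t2 := TB.term_Av (U0 := U0) (U1 := U1) (P0 := P0) (P1 := P1) (W0 := W0) (W1 := W1)
    (lo := -P1) (hi := U1)
    (x0 := fun u p w => -p) (x1 := fun u p w => u) (M1 := 1) (M2 := 1) (M3 := 0)
    (q := (U1 - U0) * (U1 - U0) + (P1 - P0) * (P1 - P0)) b
    (by unfold dist; omega) 0 (-1) 0 1 0 0 (by intros; ring) (by intros; ring) (by
      rintro u p w ⟨⟨hu0, hu1⟩, ⟨hp0, hp1⟩, hw0, hw1⟩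
      simp only [bx] at hu0 hu1 hp0 hp1 hw0 hw1
      push_cast
      try simp only [min_le_iff, le_max_iff]
      constructor <;> first
        | linarith
        | (left; linarith)
        | (right; linarith)
        | (right; left; linarith)
        | (right; right; linarith))
    (by
      rintro u p w ⟨⟨hu0, hu1⟩, ⟨hp0, hp1⟩, hw0, hw1⟩
      simp only [bx] at hu0 hu1 hp0 hp1 hw0 hw1
      push_cast
      try simp only [min_le_iff, le_max_iff]
      constructor <;> first
        | linarith
        | (left; linarith)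
        | (right; linarith)
        | (right; left; linarith)
        | (right; right; linarith)) (by norm_num) (by norm_num) (by norm_num) (by norm_num) (by norm_num) (by norm_num)
    (by ring)
  have t4 := TB.term_Av6 (U0 := U0) (U1 := U1) (P0 := P0) (P1 := P1) (W0 := W0) (W1 := W1)
    (lo := -P1) (hi := U1)
    (x0 := fun u p w => -p) (x1 := fun u p w => u) (M1 := 1) (M2 := 1) (M3 := 0)
    (q := (U1 - U0) * (U1 - U0) + (P1 - P0) * (P1 - P0)) d
    (by unfold dist; omega) 0 (-1) 0 1 0 0 (by intros; ring) (by intros; ring) (by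
      rintro u p w ⟨⟨hu0, hu1⟩, ⟨hp0, hp1⟩, hw0, hw1⟩
      simp only [bx] at hu0 hu1 hp0 hp1 hw0 hw1
      push_cast
      try simp only [min_le_iff, le_max_iff]
      constructor <;> first
        | linarith
        | (left; linarith)
        | (right; linarith)
        | (right; left; linarith)
        | (right; right; linarith))
    (by
      rintro u p w ⟨⟨hu0, hu1⟩, ⟨hp0, hp1⟩, hw0, hw1⟩
      simp only [bx] at hu0 hu1 hp0 hp1 hw0 hw1
      push_cast
      try simp only [min_le_iff, le_max_iff]
      constructor <;> first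
        | linarith
        | (left; linarith)
        | (right; linarith)
        | (right; left; linarith)
        | (right; right; linarith)) (by norm_num) (by norm_num) (by norm_num) (by norm_num) (by norm_num) (by norm_num)
    (by ring)
  have t5 := TB.term_s (U0 := U0) (U1 := U1) (P0 := P0) (P1 := P1) (W0 := W0) (W1 := W1)
    (lo := U0) (hi := U1) (x0 := fun u p w => u) (M1 := 1) (M2 := 0) (M3 := 0)
    (q := (U1 - U0) * (U1 - U0)) (-mu)
    (by unfold dist; omega) 1 0 0 (by intros; ring) (by
      rintro u p w ⟨⟨hu0, hu1⟩, ⟨hp0, hp1⟩, hw0, hw1⟩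
      simp only [bx] at hu0 hu1 hp0 hp1 hw0 hw1
      push_cast
      try simp only [min_le_iff, le_max_iff]
      constructor <;> first
        | linarith
        | (left; linarith)
        | (right; linarith)
        | (right; left; linarith)
        | (right; right; linarith))
    (by norm_num) (by norm_num) (by norm_num) (by ring)
  refine ((((t1.add t2).add t3).add t4).add t5).mono (le_of_eq ?_) |>.congr fun u p w => ?_
  · unfold e2f
    simp only [Int.cast_add]
  · unfold F2 FF
    push_cast
    ring

lemma TB_F3 (B : BC U0 U1 P0 P1 W0 W1) (hl : 0 ≤ lam) :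
    TB U0 U1 P0 P1 W0 W1 ((e3f U0 U1 P0 P1 W0 W1 a b c d mu lam g : ℤ) : ℝ)
      (fun u p w => F3 a b c d mu lam g u p w) := by
  obtain ⟨hu, hp, hw, hu0, hp0, hw0, hb1, hb2⟩ := B
  have cu : (U0 : ℝ) ≤ U1 := by exact_mod_cast hu
  have cp : (P0 : ℝ) ≤ P1 := by exact_mod_cast hp
  have cw : (W0 : ℝ) ≤ W1 := by exact_mod_cast hw
  have cu0 : (0 : ℝ) ≤ U0 := by exact_mod_cast hu0
  have cp0 : (0 : ℝ) ≤ P0 := by exact_mod_cast hp0
  have t1 : ∀ z : ℤ, _ := fun z => TB.term_Av (U0 := U0) (U1 := U1) (P0 := P0) (P1 := P1)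
    (W0 := W0) (W1 := W1)
    (lo := min (U0 - W1) U0) (hi := max (U1 - W0) U1)
    (x0 := fun u p w => u - w) (x1 := fun u p w => u) (M1 := 1) (M2 := 0) (M3 := 1)
    (q := (U1 - U0) * (U1 - U0) + (W1 - W0) * (W1 - W0)) z
    (by unfold dist; omega) 1 0 (-1) 1 0 0 (by intros; ring) (by intros; ring) (by
      rintro u p w ⟨⟨hu0, hu1⟩, ⟨hp0, hp1⟩, hw0, hw1⟩
      simp only [bx] at hu0 hu1 hp0 hp1 hw0 hw1
      push_cast
      try simp only [min_le_iff, le_max_iff]
      constructor <;> first
        | linarith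
        | (left; linarith)
        | (right; linarith)
        | (right; left; linarith)
        | (right; right; linarith))
    (by
      rintro u p w ⟨⟨hu0, hu1⟩, ⟨hp0, hp1⟩, hw0, hw1⟩
      simp only [bx] at hu0 hu1 hp0 hp1 hw0 hw1
      push_cast
      try simp only [min_le_iff, le_max_iff]
      constructor <;> first
        | linarith
        | (left; linarith)
        | (right; linarith)
        | (right; left; linarith)
        | (right; right; linarith)) (by norm_num) (by norm_num) (by norm_num) (by norm_num) (by norm_num) (by norm_num)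
    (by ring)
  have t3 := TB.term_Av6 (U0 := U0) (U1 := U1) (P0 := P0) (P1 := P1) (W0 := W0) (W1 := W1)
    (lo := min (U0 - W1) U0) (hi := max (U1 - W0) U1)
    (x0 := fun u p w => u - w) (x1 := fun u p w => u) (M1 := 1) (M2 := 0) (M3 := 1)
    (q := (U1 - U0) * (U1 - U0) + (W1 - W0) * (W1 - W0)) c
    (by unfold dist; omega) 1 0 (-1) 1 0 0 (by intros; ring) (by intros; ring) (by
      rintro u p w ⟨⟨hu0, hu1⟩, ⟨hp0, hp1⟩, hw0, hw1⟩
      simp only [bx] at hu0 hu1 hp0 hp1 hw0 hw1
      push_cast
      try simp only [min_le_iff, le_max_iff]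
      constructor <;> first
        | linarith
        | (left; linarith)
        | (right; linarith)
        | (right; left; linarith)
        | (right; right; linarith))
    (by
      rintro u p w ⟨⟨hu0, hu1⟩, ⟨hp0, hp1⟩, hw0, hw1⟩
      simp only [bx] at hu0 hu1 hp0 hp1 hw0 hw1
      push_cast
      try simp only [min_le_iff, le_max_iff]
      constructor <;> first
        | linarith
        | (left; linarith)
        | (right; linarith)
        | (right; left; linarith)
        | (right; right; linarith)) (by norm_num) (by norm_num) (by norm_num) (by norm_num) (by norm_num) (by norm_num)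
    (by ring)
  have t2 : ∀ z : ℤ, _ := fun z => TB.term_Av (U0 := U0) (U1 := U1) (P0 := P0) (P1 := P1)
    (W0 := W0) (W1 := W1)
    (lo := U0) (hi := 2 * U1 + P1)
    (x0 := fun u p w => u) (x1 := fun u p w => 2 * u + p) (M1 := 4) (M2 := 1) (M3 := 0)
    (q := 4 * ((U1 - U0) * (U1 - U0)) + (P1 - P0) * (P1 - P0)) z
    (by unfold dist; omega) 1 0 0 2 1 0 (by intros; ring) (by intros; ring) (by
      rintro u p w ⟨⟨hu0, hu1⟩, ⟨hp0, hp1⟩, hw0, hw1⟩
      simp only [bx] at hu0 hu1 hp0 hp1 hw0 hw1
      push_cast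
      try simp only [min_le_iff, le_max_iff]
      constructor <;> first
        | linarith
        | (left; linarith)
        | (right; linarith)
        | (right; left; linarith)
        | (right; right; linarith))
    (by
      rintro u p w ⟨⟨hu0, hu1⟩, ⟨hp0, hp1⟩, hw0, hw1⟩
      simp only [bx] at hu0 hu1 hp0 hp1 hw0 hw1
      push_cast
      try simp only [min_le_iff, le_max_iff]
      constructor <;> first
        | linarith
        | (left; linarith)
        | (right; linarith)
        | (right; left; linarith)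
        | (right; right; linarith)) (by norm_num) (by norm_num) (by norm_num) (by norm_num) (by norm_num) (by norm_num)
    (by ring)
  have t4 := TB.term_Av6 (U0 := U0) (U1 := U1) (P0 := P0) (P1 := P1) (W0 := W0) (W1 := W1)
    (lo := U0) (hi := 2 * U1 + P1)
    (x0 := fun u p w => u) (x1 := fun u p w => 2 * u + p) (M1 := 4) (M2 := 1) (M3 := 0)
    (q := 4 * ((U1 - U0) * (U1 - U0)) + (P1 - P0) * (P1 - P0)) d
    (by unfold dist; omega) 1 0 0 2 1 0 (by intros; ring) (by intros; ring) (by
      rintro u p w ⟨⟨hu0, hu1⟩, ⟨hp0, hp1⟩, hw0, hw1⟩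
      simp only [bx] at hu0 hu1 hp0 hp1 hw0 hw1
      push_cast
      try simp only [min_le_iff, le_max_iff]
      constructor <;> first
        | linarith
        | (left; linarith)
        | (right; linarith)
        | (right; left; linarith)
        | (right; right; linarith))
    (by
      rintro u p w ⟨⟨hu0, hu1⟩, ⟨hp0, hp1⟩, hw0, hw1⟩
      simp only [bx] at hu0 hu1 hp0 hp1 hw0 hw1
      push_cast
      try simp only [min_le_iff, le_max_iff]
      constructor <;> first
        | linarith
        | (left; linarith)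
        | (right; linarith)
        | (right; left; linarith)
        | (right; right; linarith)) (by norm_num) (by norm_num) (by norm_num) (by norm_num) (by norm_num) (by norm_num)
    (by ring)
  have t5 : ∀ z : ℤ, _ := fun z => TB.term_s (U0 := U0) (U1 := U1) (P0 := P0) (P1 := P1)
    (W0 := W0) (W1 := W1)
    (lo := 2 * U0 + P0) (hi := 2 * U1 + P1) (x0 := fun u p w => 2 * u + p)
    (M1 := 4) (M2 := 1) (M3 := 0)
    (q := 4 * ((U1 - U0) * (U1 - U0)) + (P1 - P0) * (P1 - P0)) z
    (by unfold dist; omega) 2 1 0 (by intros; ring) (by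
      rintro u p w ⟨⟨hu0, hu1⟩, ⟨hp0, hp1⟩, hw0, hw1⟩
      simp only [bx] at hu0 hu1 hp0 hp1 hw0 hw1
      push_cast
      try simp only [min_le_iff, le_max_iff]
      constructor <;> first
        | linarith
        | (left; linarith)
        | (right; linarith)
        | (right; left; linarith)
        | (right; right; linarith))
    (by norm_num) (by norm_num) (by norm_num) (by ring)
  have w22 := TB.term_Av2 (U0 := U0) (U1 := U1) (P0 := P0) (P1 := P1) (W0 := W0) (W1 := W1)
    (lo := -P1) (hi := 2 * U1 + P1)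
    (x0 := fun u p w => -(p / 2)) (x1 := fun u p w => u + p / 2)
    (x2 := fun u p w => -(p / 2)) (x3 := fun u p w => u + p / 2)
    (M1 := 4) (M2 := 1) (M3 := 0)
    (q := 4 * ((U1 - U0) * (U1 - U0)) + (P1 - P0) * (P1 - P0)) (-((32 + g) * (32 + g)))
    (by unfold dist; omega) 0 (-1 / 2) 0 1 (1 / 2) 0 0 (-1 / 2) 0 1 (1 / 2) 0
    (by intros; ring) (by intros; ring) (by intros; ring) (by intros; ring)
    (by
      rintro u p w ⟨⟨hu0, hu1⟩, ⟨hp0, hp1⟩, hw0, hw1⟩
      simp only [bx] at hu0 hu1 hp0 hp1 hw0 hw1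
      push_cast
      try simp only [min_le_iff, le_max_iff]
      constructor <;> first
        | linarith
        | (left; linarith)
        | (right; linarith)
        | (right; left; linarith)
        | (right; right; linarith)) (by
      rintro u p w ⟨⟨hu0, hu1⟩, ⟨hp0, hp1⟩, hw0, hw1⟩
      simp only [bx] at hu0 hu1 hp0 hp1 hw0 hw1
      push_cast
      try simp only [min_le_iff, le_max_iff]
      constructor <;> first
        | linarith
        | (left; linarith)
        | (right; linarith)
        | (right; left; linarith)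
        | (right; right; linarith)) (by
      rintro u p w ⟨⟨hu0, hu1⟩, ⟨hp0, hp1⟩, hw0, hw1⟩
      simp only [bx] at hu0 hu1 hp0 hp1 hw0 hw1
      push_cast
      try simp only [min_le_iff, le_max_iff]
      constructor <;> first
        | linarith
        | (left; linarith)
        | (right; linarith)
        | (right; left; linarith)
        | (right; right; linarith)) (by
      rintro u p w ⟨⟨hu0, hu1⟩, ⟨hp0, hp1⟩, hw0, hw1⟩
      simp only [bx] at hu0 hu1 hp0 hp1 hw0 hw1
      push_cast
      try simp only [min_le_iff, le_max_iff]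
      constructor <;> first
        | linarith
        | (left; linarith)
        | (right; linarith)
        | (right; left; linarith)
        | (right; right; linarith)) (by norm_num) (by norm_num) (by norm_num) (by norm_num)
    (by norm_num) (by norm_num) (by norm_num) (by norm_num) (by norm_num) (by norm_num)
    (by norm_num) (by norm_num) (by ring)
  have w12 := TB.term_Av2 (U0 := U0) (U1 := U1) (P0 := P0) (P1 := P1) (W0 := W0) (W1 := W1)
    (lo := min (-P1 - W1) (min (U0 - W1) (-P1))) (hi := max (-P0 - W0) (max (U1 - W0) U1))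
    (x0 := fun u p w => -(p / 2) - w) (x1 := fun u p w => -(p / 2))
    (x2 := fun u p w => -(p / 2)) (x3 := fun u p w => u + p / 2)
    (M1 := 1) (M2 := 1) (M3 := 1)
    (q := (U1 - U0) * (U1 - U0) + (P1 - P0) * (P1 - P0) + (W1 - W0) * (W1 - W0))
    (2 * g * (32 + g))
    (by unfold dist; omega) 0 (-1 / 2) (-1) 0 (-1 / 2) 0 0 (-1 / 2) 0 1 (1 / 2) 0
    (by intros; ring) (by intros; ring) (by intros; ring) (by intros; ring)
    (by
      rintro u p w ⟨⟨hu0, hu1⟩, ⟨hp0, hp1⟩, hw0, hw1⟩
      simp only [bx] at hu0 hu1 hp0 hp1 hw0 hw1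
      push_cast
      try simp only [min_le_iff, le_max_iff]
      constructor <;> first
        | linarith
        | (left; linarith)
        | (right; linarith)
        | (right; left; linarith)
        | (right; right; linarith)) (by
      rintro u p w ⟨⟨hu0, hu1⟩, ⟨hp0, hp1⟩, hw0, hw1⟩
      simp only [bx] at hu0 hu1 hp0 hp1 hw0 hw1
      push_cast
      try simp only [min_le_iff, le_max_iff]
      constructor <;> first
        | linarith
        | (left; linarith)
        | (right; linarith)
        | (right; left; linarith)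
        | (right; right; linarith)) (by
      rintro u p w ⟨⟨hu0, hu1⟩, ⟨hp0, hp1⟩, hw0, hw1⟩
      simp only [bx] at hu0 hu1 hp0 hp1 hw0 hw1
      push_cast
      try simp only [min_le_iff, le_max_iff]
      constructor <;> first
        | linarith
        | (left; linarith)
        | (right; linarith)
        | (right; left; linarith)
        | (right; right; linarith)) (by
      rintro u p w ⟨⟨hu0, hu1⟩, ⟨hp0, hp1⟩, hw0, hw1⟩
      simp only [bx] at hu0 hu1 hp0 hp1 hw0 hw1
      push_cast
      try simp only [min_le_iff, le_max_iff]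
      constructor <;> first
        | linarith
        | (left; linarith)
        | (right; linarith)
        | (right; left; linarith)
        | (right; right; linarith)) (by norm_num) (by norm_num) (by norm_num) (by norm_num)
    (by norm_num) (by norm_num) (by norm_num) (by norm_num) (by norm_num) (by norm_num)
    (by norm_num) (by norm_num) (by ring)
  have w11 := TB.term_Av2 (U0 := U0) (U1 := U1) (P0 := P0) (P1 := P1) (W0 := W0) (W1 := W1)
    (lo := min (-P1 - 2 * W1) (min (-P1 - W1) (-P1)))
    (hi := max (-P0 - 2 * W0) (max (-P0 - W0) (-P0)))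
    (x0 := fun u p w => -(p / 2) - w) (x1 := fun u p w => -(p / 2))
    (x2 := fun u p w => -(p / 2) - w) (x3 := fun u p w => -(p / 2))
    (M1 := 0) (M2 := 1) (M3 := 4)
    (q := (P1 - P0) * (P1 - P0) + 4 * ((W1 - W0) * (W1 - W0))) (-(g * g))
    (by unfold dist; omega) 0 (-1 / 2) (-1) 0 (-1 / 2) 0 0 (-1 / 2) (-1) 0 (-1 / 2) 0
    (by intros; ring) (by intros; ring) (by intros; ring) (by intros; ring)
    (by
      rintro u p w ⟨⟨hu0, hu1⟩, ⟨hp0, hp1⟩, hw0, hw1⟩
      simp only [bx] at hu0 hu1 hp0 hp1 hw0 hw1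
      push_cast
      try simp only [min_le_iff, le_max_iff]
      constructor <;> first
        | linarith
        | (left; linarith)
        | (right; linarith)
        | (right; left; linarith)
        | (right; right; linarith)) (by
      rintro u p w ⟨⟨hu0, hu1⟩, ⟨hp0, hp1⟩, hw0, hw1⟩
      simp only [bx] at hu0 hu1 hp0 hp1 hw0 hw1
      push_cast
      try simp only [min_le_iff, le_max_iff]
      constructor <;> first
        | linarith
        | (left; linarith)
        | (right; linarith)
        | (right; left; linarith)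
        | (right; right; linarith)) (by
      rintro u p w ⟨⟨hu0, hu1⟩, ⟨hp0, hp1⟩, hw0, hw1⟩
      simp only [bx] at hu0 hu1 hp0 hp1 hw0 hw1
      push_cast
      try simp only [min_le_iff, le_max_iff]
      constructor <;> first
        | linarith
        | (left; linarith)
        | (right; linarith)
        | (right; left; linarith)
        | (right; right; linarith)) (by
      rintro u p w ⟨⟨hu0, hu1⟩, ⟨hp0, hp1⟩, hw0, hw1⟩
      simp only [bx] at hu0 hu1 hp0 hp1 hw0 hw1
      push_cast
      try simp only [min_le_iff, le_max_iff]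
      constructor <;> first
        | linarith
        | (left; linarith)
        | (right; linarith)
        | (right; left; linarith)
        | (right; right; linarith)) (by norm_num) (by norm_num) (by norm_num) (by norm_num)
    (by norm_num) (by norm_num) (by norm_num) (by norm_num) (by norm_num) (by norm_num)
    (by norm_num) (by norm_num) (by ring)
  have hl' : (0 : ℝ) ≤ (lam : ℝ) := by exact_mod_cast hl
  have K := ((((((t5 (-1024)).add (t2 (64 * (32 + g)))).add (t1 (-(64 * g)))).add w22).add
    w12).add w11).smul hl'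
  refine ((((((t1 a).add (t2 b)).add t3).add t4).add (t5 (-mu))).add K).mono (le_of_eq ?_) |>.congr
    fun u p w => ?_
  · unfold e3f
    simp only [Int.cast_add, Int.cast_mul]
  · unfold F3 FF K0
    rw [show -(p / 2) + (u + p / 2) = u by ring,
      show u + p / 2 + (u + p / 2) = 2 * u + p by ring,
      show -(p / 2) - w + (u + p / 2) = u - w by ring]
    push_cast
    ring

lemma TB_GG (B : BC U0 U1 P0 P1 W0 W1) :
    TB U0 U1 P0 P1 W0 W1 ((egf U0 U1 P0 P1 W0 W1 g k : ℤ) : ℝ)
      (fun u p w => -GG g k u p w) := by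
  obtain ⟨hu, hp, hw, hu0, hp0, hw0, hb1, hb2⟩ := B
  have cu : (U0 : ℝ) ≤ U1 := by exact_mod_cast hu
  have cp : (P0 : ℝ) ≤ P1 := by exact_mod_cast hp
  have cw : (W0 : ℝ) ≤ W1 := by exact_mod_cast hw
  have cu0 : (0 : ℝ) ≤ U0 := by exact_mod_cast hu0
  have cp0 : (0 : ℝ) ≤ P0 := by exact_mod_cast hp0
  have t1 := TB.term_Av (U0 := U0) (U1 := U1) (P0 := P0) (P1 := P1) (W0 := W0) (W1 := W1)
    (lo := min (U0 - W1) U0) (hi := max (U1 - W0) U1)
    (x0 := fun u p w => u - w) (x1 := fun u p w => u) (M1 := 1) (M2 := 0) (M3 := 1)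
    (q := (U1 - U0) * (U1 - U0) + (W1 - W0) * (W1 - W0)) (-(32 * (2048 + k)))
    (by unfold dist; omega) 1 0 (-1) 1 0 0 (by intros; ring) (by intros; ring) (by
      rintro u p w ⟨⟨hu0, hu1⟩, ⟨hp0, hp1⟩, hw0, hw1⟩
      simp only [bx] at hu0 hu1 hp0 hp1 hw0 hw1
      push_cast
      try simp only [min_le_iff, le_max_iff]
      constructor <;> first
        | linarith
        | (left; linarith)
        | (right; linarith)
        | (right; left; linarith)
        | (right; right; linarith))
    (by
      rintro u p w ⟨⟨hu0, hu1⟩, ⟨hp0, hp1⟩, hw0, hw1⟩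
      simp only [bx] at hu0 hu1 hp0 hp1 hw0 hw1
      push_cast
      try simp only [min_le_iff, le_max_iff]
      constructor <;> first
        | linarith
        | (left; linarith)
        | (right; linarith)
        | (right; left; linarith)
        | (right; right; linarith)) (by norm_num) (by norm_num) (by norm_num) (by norm_num) (by norm_num) (by norm_num)
    (by ring)
  have w12 := TB.term_Av2 (U0 := U0) (U1 := U1) (P0 := P0) (P1 := P1) (W0 := W0) (W1 := W1)
    (lo := min (-P1 - W1) (min (U0 - W1) (-P1))) (hi := max (-P0 - W0) (max (U1 - W0) U1))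
    (x0 := fun u p w => -(p / 2) - w) (x1 := fun u p w => -(p / 2))
    (x2 := fun u p w => -(p / 2)) (x3 := fun u p w => u + p / 2)
    (M1 := 1) (M2 := 1) (M3 := 1)
    (q := (U1 - U0) * (U1 - U0) + (P1 - P0) * (P1 - P0) + (W1 - W0) * (W1 - W0))
    (2048 * (32 + g))
    (by unfold dist; omega) 0 (-1 / 2) (-1) 0 (-1 / 2) 0 0 (-1 / 2) 0 1 (1 / 2) 0
    (by intros; ring) (by intros; ring) (by intros; ring) (by intros; ring)
    (by
      rintro u p w ⟨⟨hu0, hu1⟩, ⟨hp0, hp1⟩, hw0, hw1⟩
      simp only [bx] at hu0 hu1 hp0 hp1 hw0 hw1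
      push_cast
      try simp only [min_le_iff, le_max_iff]
      constructor <;> first
        | linarith
        | (left; linarith)
        | (right; linarith)
        | (right; left; linarith)
        | (right; right; linarith)) (by
      rintro u p w ⟨⟨hu0, hu1⟩, ⟨hp0, hp1⟩, hw0, hw1⟩
      simp only [bx] at hu0 hu1 hp0 hp1 hw0 hw1
      push_cast
      try simp only [min_le_iff, le_max_iff]
      constructor <;> first
        | linarith
        | (left; linarith)
        | (right; linarith)
        | (right; left; linarith)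
        | (right; right; linarith)) (by
      rintro u p w ⟨⟨hu0, hu1⟩, ⟨hp0, hp1⟩, hw0, hw1⟩
      simp only [bx] at hu0 hu1 hp0 hp1 hw0 hw1
      push_cast
      try simp only [min_le_iff, le_max_iff]
      constructor <;> first
        | linarith
        | (left; linarith)
        | (right; linarith)
        | (right; left; linarith)
        | (right; right; linarith)) (by
      rintro u p w ⟨⟨hu0, hu1⟩, ⟨hp0, hp1⟩, hw0, hw1⟩
      simp only [bx] at hu0 hu1 hp0 hp1 hw0 hw1
      push_cast
      try simp only [min_le_iff, le_max_iff]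
      constructor <;> first
        | linarith
        | (left; linarith)
        | (right; linarith)
        | (right; left; linarith)
        | (right; right; linarith)) (by norm_num) (by norm_num) (by norm_num) (by norm_num)
    (by norm_num) (by norm_num) (by norm_num) (by norm_num) (by norm_num) (by norm_num)
    (by norm_num) (by norm_num) (by ring)
  have w11 := TB.term_Av2 (U0 := U0) (U1 := U1) (P0 := P0) (P1 := P1) (W0 := W0) (W1 := W1)
    (lo := min (-P1 - 2 * W1) (min (-P1 - W1) (-P1)))
    (hi := max (-P0 - 2 * W0) (max (-P0 - W0) (-P0)))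
    (x0 := fun u p w => -(p / 2) - w) (x1 := fun u p w => -(p / 2))
    (x2 := fun u p w => -(p / 2) - w) (x3 := fun u p w => -(p / 2))
    (M1 := 0) (M2 := 1) (M3 := 4)
    (q := (P1 - P0) * (P1 - P0) + 4 * ((W1 - W0) * (W1 - W0))) (-(2048 * g))
    (by unfold dist; omega) 0 (-1 / 2) (-1) 0 (-1 / 2) 0 0 (-1 / 2) (-1) 0 (-1 / 2) 0
    (by intros; ring) (by intros; ring) (by intros; ring) (by intros; ring)
    (by
      rintro u p w ⟨⟨hu0, hu1⟩, ⟨hp0, hp1⟩, hw0, hw1⟩
      simp only [bx] at hu0 hu1 hp0 hp1 hw0 hw1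
      push_cast
      try simp only [min_le_iff, le_max_iff]
      constructor <;> first
        | linarith
        | (left; linarith)
        | (right; linarith)
        | (right; left; linarith)
        | (right; right; linarith)) (by
      rintro u p w ⟨⟨hu0, hu1⟩, ⟨hp0, hp1⟩, hw0, hw1⟩
      simp only [bx] at hu0 hu1 hp0 hp1 hw0 hw1
      push_cast
      try simp only [min_le_iff, le_max_iff]
      constructor <;> first
        | linarith
        | (left; linarith)
        | (right; linarith)
        | (right; left; linarith)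
        | (right; right; linarith)) (by
      rintro u p w ⟨⟨hu0, hu1⟩, ⟨hp0, hp1⟩, hw0, hw1⟩
      simp only [bx] at hu0 hu1 hp0 hp1 hw0 hw1
      push_cast
      try simp only [min_le_iff, le_max_iff]
      constructor <;> first
        | linarith
        | (left; linarith)
        | (right; linarith)
        | (right; left; linarith)
        | (right; right; linarith)) (by
      rintro u p w ⟨⟨hu0, hu1⟩, ⟨hp0, hp1⟩, hw0, hw1⟩
      simp only [bx] at hu0 hu1 hp0 hp1 hw0 hw1
      push_cast
      try simp only [min_le_iff, le_max_iff]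
      constructor <;> first
        | linarith
        | (left; linarith)
        | (right; linarith)
        | (right; left; linarith)
        | (right; right; linarith)) (by norm_num) (by norm_num) (by norm_num) (by norm_num)
    (by norm_num) (by norm_num) (by norm_num) (by norm_num) (by norm_num) (by norm_num)
    (by norm_num) (by norm_num) (by ring)
  refine ((t1.add w12).add w11).mono (le_of_eq ?_) |>.congr fun u p w => ?_
  · unfold egf
    simp only [Int.cast_add]
  · unfold GG G0
    rw [show -(p / 2) + (u + p / 2) = u by ring,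
      show -(p / 2) - w + (u + p / 2) = u - w by ring]
    push_cast
    ring

end

/-- Soundness of a leaf. -/
theorem leaf_sound (hC : CornerSpec) (h : leafOK U0 U1 P0 P1 W0 W1 a b c d mu lam g k = true)
    {y1 y2 y3 m1 m2 m3 : ℝ} (T : Tri y1 y2 y3 m1 m2 m3)
    (hm : (bx U0 U1 P0 P1 W0 W1).mem (y2 + y3) (-(2 * y2)) (y2 - y1)) : False := by
  obtain ⟨⟨l1, l2, l3, l4⟩, ⟨h1, h2, h3, h4, h5, h6, h7, h8⟩, hc⟩ := leafOK_spec h
  have B : BC U0 U1 P0 P1 W0 W1 := ⟨h1, h2, h3, h4, h5, h6, h7, h8⟩
  have hcc : ∀ U P W : ℤ, (U = U0 ∨ U = U1) → (P = P0 ∨ P = P1) → (W = W0 ∨ W = W1) → _ :=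
    fun U P W hU hP hW => hC _ _ _ _ _ _ _ _ _ _ _ _ U P W (hc U P W hU hP hW)
      (by rcases hU with rfl | rfl <;> omega) (by rcases hP with rfl | rfl <;> omega)
      (by rcases hW with rfl | rfl <;> omega)
      (by rcases hP with rfl | rfl <;> rcases hW with rfl | rfl <;> omega)
      (by rcases hU with rfl | rfl <;> rcases hP with rfl | rfl <;> omega) l1
  have f1 := (TB_F1 (a := a) (b := b) (c := c) (d := d) (mu := mu) B).corner h1 h2 h3
    (fun U P W hU hP hW => (hcc U P W hU hP hW).1) hm
  have f2 := (TB_F2 (a := a) (b := b) (c := c) (d := d) (mu := mu) B).corner h1 h2 h3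
    (fun U P W hU hP hW => (hcc U P W hU hP hW).2.1) hm
  have f3 := (TB_F3 (a := a) (b := b) (c := c) (d := d) (mu := mu) (g := g) B l1).corner h1 h2 h3
    (fun U P W hU hP hW => (hcc U P W hU hP hW).2.2.1) hm
  have fg : 0 < lam → 0 ≤ GG g k (y2 + y3) (-(2 * y2)) (y2 - y1) := fun hl => by
    have := (TB_GG (g := g) (k := k) B).corner h1 h2 h3
      (fun U P W hU hP hW => by
        have := (hcc U P W hU hP hW).2.2.2 hl
        rw [neg_div]
        linarith) hm
    linarith
  have e1 : -(-(2 * y2) / 2) - (y2 - y1) = y1 := by ring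
  have e2 : -(-(2 * y2) / 2) = y2 := by ring
  have e3 : y2 + y3 + -(2 * y2) / 2 = y3 := by ring
  refine T.farkas (a := (a : ℝ)) (b := b) (α := c) (β := d) (mu := mu) (lam := lam) (g := g)
    (k := k) (by exact_mod_cast l1) (by exact_mod_cast l3) (by exact_mod_cast l2)
    (by exact_mod_cast l4) (fun hl => ?_) ?_ ?_ ?_
  · have := fg (by exact_mod_cast hl)
    unfold GG at this
    rwa [e1, e2, e3] at this
  · unfold F1 FF at f1
    rw [show -(-(2 * y2)) - 2 * (y2 - y1) = y1 + y1 by ring,
      show -(-(2 * y2)) - (y2 - y1) = y2 + y1 by ring,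
      show y2 + y3 - (y2 - y1) = y3 + y1 by ring] at f1
    exact f1
  · unfold F2 FF at f2
    rw [show -(-(2 * y2)) - (y2 - y1) = y1 + y2 by ring,
      show -(-(2 * y2)) = y2 + y2 by ring, show y2 + y3 = y3 + y2 by ring] at f2
    exact f2
  · unfold F3 FF at f3
    rw [e1, e2, e3, show y2 + y3 - (y2 - y1) = y1 + y3 by ring,
      show 2 * (y2 + y3) + -(2 * y2) = y3 + y3 by ring] at f3
    exact f3

/-- Soundness of a tree. -/
theorem Tr.sound (hC : CornerSpec) {y1 y2 y3 m1 m2 m3 : ℝ} (T : Tri y1 y2 y3 m1 m2 m3)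
    (hw : y2 - y1 < 2 * (y2 + y3)) : ∀ (t : Tr) (U0 U1 P0 P1 W0 W1 : ℤ),
      t.ok U0 U1 P0 P1 W0 W1 = true →
      (bx U0 U1 P0 P1 W0 W1).mem (y2 + y3) (-(2 * y2)) (y2 - y1) → False := by
  intro t
  induction t with
  | skip =>
    intro U0 U1 P0 P1 W0 W1 h hm
    unfold Tr.ok at h
    have h' : 2 * U1 ≤ W0 := by simpa using h
    have h2 : (2 : ℝ) * U1 ≤ W0 := by exact_mod_cast h'
    obtain ⟨⟨_, a2⟩, _, b1, _⟩ := hm
    simp only [bx] at a2 b1
    linarith
  | leaf a b c d mu lam g k =>
    intro U0 U1 P0 P1 W0 W1 h hm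
    exact leaf_sound hC h T hm
  | splitU m l r hl hr =>
    intro U0 U1 P0 P1 W0 W1 h hm
    unfold Tr.ok at h
    rw [Bool.and_eq_true] at h
    obtain ⟨⟨a1, a2⟩, hr'⟩ := hm
    rcases le_total (y2 + y3) ((m : ℝ) / 64) with h0 | h0
    · exact hl U0 m P0 P1 W0 W1 h.1 ⟨⟨a1, h0⟩, hr'⟩
    · exact hr m U1 P0 P1 W0 W1 h.2 ⟨⟨h0, a2⟩, hr'⟩
  | splitP m l r hl hr =>
    intro U0 U1 P0 P1 W0 W1 h hm
    unfold Tr.ok at h
    rw [Bool.and_eq_true] at h
    obtain ⟨hu', ⟨a1, a2⟩, hr'⟩ := hm
    rcases le_total (-(2 * y2)) ((m : ℝ) / 64) with h0 | h0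
    · exact hl U0 U1 P0 m W0 W1 h.1 ⟨hu', ⟨a1, h0⟩, hr'⟩
    · exact hr U0 U1 m P1 W0 W1 h.2 ⟨hu', ⟨h0, a2⟩, hr'⟩
  | splitW m l r hl hr =>
    intro U0 U1 P0 P1 W0 W1 h hm
    unfold Tr.ok at h
    rw [Bool.and_eq_true] at h
    obtain ⟨hu', hp', ⟨a1, a2⟩⟩ := hm
    rcases le_total (y2 - y1) ((m : ℝ) / 64) with h0 | h0
    · exact hl U0 U1 P0 P1 W0 m h.1 ⟨hu', hp', ⟨a1, h0⟩⟩
    · exact hr U0 U1 P0 P1 m W1 h.2 ⟨hu', hp', ⟨h0, a2⟩⟩

end Pool.Agent.helper26.B3
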