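import Pool.Agent.helper26.B3.LeafTB
import Pool.Agent.helper26.B3D.Asm
import Pool.Agent.helper16.B3.Corner
import Pool.Agent.helper85.B3.Reg

/-!
No data `Tri` with `y2 <= 0` exist: regions covered by the certificates.
-/

namespace Pool.Agent.helper26.B3

open Real Set

theorem cornerSpec : CornerSpec := fun _ _ _ _ _ _ _ _ _ _ _ _ _ _ _ h h1 h2 h3 h4 h5 h6 =>
  corner_sound h h1 h2 h3 h4 h5 h6

/-- The bounds for the regions outside of the certificates. -/
def Region : Prop := ∀ y1 y2 y3 m1 m2 m3 : ℝ, Tri y1 y2 y3 m1 m2 m3 → y2 ≤ 0 →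
  (y2 + y3 ≤ 5 → -(2 * y2) ≤ 37 / 4) ∧
  (5 ≤ y2 + y3 → -(2 * y2) ≤ 11 / 8 ∧ y2 - y1 ≤ 13 / 4 ∧ y2 + y3 ≤ 13 / 2)

theorem no_tri_of (hR : Region) (y1 y2 y3 m1 m2 m3 : ℝ) (T : Tri y1 y2 y3 m1 m2 m3) (h2 : y2 ≤ 0) :
    False := by
  have hu := T.y2_add_y3_pos h2
  have hs := T.sum_pos h2
  have h12 := T.h12
  have hw : y2 - y1 < 2 * (y2 + y3) := by linarith
  obtain ⟨r1, r2⟩ := hR _ _ _ _ _ _ T h2
  have use : ∀ {U0 U1 P0 P1 W0 W1 : ℤ}, (∃ t : Tr, t.ok U0 U1 P0 P1 W0 W1 = true) →
      (U0 : ℝ) / 64 ≤ y2 + y3 → y2 + y3 ≤ (U1 : ℝ) / 64 → (P0 : ℝ) / 64 ≤ -(2 * y2) →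
      -(2 * y2) ≤ (P1 : ℝ) / 64 → (W0 : ℝ) / 64 ≤ y2 - y1 → y2 - y1 ≤ (W1 : ℝ) / 64 → False := by
    intro U0 U1 P0 P1 W0 W1 ⟨t, ht⟩ a1 a2 a3 a4 a5 a6
    exact Tr.sound cornerSpec T hw t U0 U1 P0 P1 W0 W1 ht ⟨⟨a1, a2⟩, ⟨a3, a4⟩, ⟨a5, a6⟩⟩
  rcases le_total (y2 + y3) 5 with h5 | h5
  · have hp := r1 h5
    rcases le_total (y2 + y3) (1 / 8) with c0 | c0
    · rcases le_total (-(2 * y2)) (1 / 2) with d0 | d0
      · exact T.not_small' (by linarith) (by linarith)
      · exact use exists_B (by push_cast; linarith) (by push_cast; linarith) (by push_cast; linarith)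
          (by push_cast; linarith) (by push_cast; linarith) (by push_cast; linarith)
    rcases le_total (y2 + y3) 1 with c1 | c1
    · exact use exists_A1 (by push_cast; linarith) (by push_cast; linarith) (by push_cast; linarith)
        (by push_cast; linarith) (by push_cast; linarith) (by push_cast; linarith)
    rcases le_total (y2 + y3) 2 with c2 | c2
    · exact use exists_A2 (by push_cast; linarith) (by push_cast; linarith) (by push_cast; linarith)
        (by push_cast; linarith) (by push_cast; linarith) (by push_cast; linarith)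
    rcases le_total (y2 + y3) 3 with c3 | c3
    · exact use exists_A3 (by push_cast; linarith) (by push_cast; linarith) (by push_cast; linarith)
        (by push_cast; linarith) (by push_cast; linarith) (by push_cast; linarith)
    rcases le_total (y2 + y3) 4 with c4 | c4
    · exact use exists_A4 (by push_cast; linarith) (by push_cast; linarith) (by push_cast; linarith)
        (by push_cast; linarith) (by push_cast; linarith) (by push_cast; linarith)
    · exact use exists_A5 (by push_cast; linarith) (by push_cast; linarith) (by push_cast; linarith)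
        (by push_cast; linarith) (by push_cast; linarith) (by push_cast; linarith)
  · obtain ⟨b1, b2, b3⟩ := r2 h5
    exact use exists_C (by push_cast; linarith) (by push_cast; linarith) (by push_cast; linarith)
      (by push_cast; linarith) (by push_cast; linarith) (by push_cast; linarith)

end Pool.Agent.helper26.B3
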