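import Pool.Agent.helper26.B3.Defs

/-!
Semiconvexity: `SC κ g J` says that `g + κ x^2 / 2` is convex on `J`, in the form of an explicit
inequality. Bounds for the second derivatives of the logistic density and of its derivative.
-/

namespace Pool.Agent.helper26.B3

open Real Set

/-- `g + κ x^2 / 2` is convex on `J`. -/
def SC (κ : ℝ) (g : ℝ → ℝ) (J : Set ℝ) : Prop :=
  ∀ x ∈ J, ∀ y ∈ J, ∀ θ : ℝ, 0 ≤ θ → θ ≤ 1 →
    g ((1 - θ) * x + θ * y) ≤ (1 - θ) * g x + θ * g y + κ / 2 * (θ * (1 - θ)) * (x - y) ^ 2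

lemma sc_of_deriv2 {g g' g'' : ℝ → ℝ} (h1 : ∀ x, HasDerivAt g (g' x) x)
    (h2 : ∀ x, HasDerivAt g' (g'' x) x) {κ : ℝ} {J : Set ℝ} (hJ : Convex ℝ J)
    (hk : ∀ x ∈ J, -κ ≤ g'' x) : SC κ g J := by
  have hc : ConvexOn ℝ J (fun x => g x + κ / 2 * x ^ 2) := by
    refine convexOn_of_hasDerivWithinAt2_nonneg (f' := fun x => g' x + κ * x)
      (f'' := fun x => g'' x + κ) hJ ?_ ?_ ?_ ?_
    · intro x _
      exact ((h1 x).continuousAt.add (by fun_prop)).continuousWithinAt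
    · intro x _
      have : HasDerivAt (fun x => g x + κ / 2 * x ^ 2) (g' x + κ * x) x := by
        have h := (h1 x).add (((hasDerivAt_id' x).pow 2).const_mul (κ / 2))
        exact h.congr_deriv (by simp; ring)
      exact this.hasDerivWithinAt
    · intro x _
      have : HasDerivAt (fun x => g' x + κ * x) (g'' x + κ) x := by
        have h := (h2 x).add ((hasDerivAt_id' x).const_mul κ)
        exact h.congr_deriv (by simp)
      exact this.hasDerivWithinAt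
    · intro x hx
      have := hk x (interior_subset hx)
      linarith
  intro x hx y hy θ h0 h1'
  have h := hc.2 hx hy (sub_nonneg.2 h1') h0 (by ring)
  simp only [smul_eq_mul] at h
  nlinarith [h]

lemma SC.mono {κ κ' : ℝ} {g : ℝ → ℝ} {J J' : Set ℝ} (h : SC κ g J) (hJ : J' ⊆ J) (hk : κ ≤ κ') :
    SC κ' g J' := by
  intro x hx y hy θ h0 h1
  have := h x (hJ hx) y (hJ hy) θ h0 h1
  have h2 : κ / 2 * (θ * (1 - θ)) * (x - y) ^ 2 ≤ κ' / 2 * (θ * (1 - θ)) * (x - y) ^ 2 := by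
    have : 0 ≤ θ * (1 - θ) := mul_nonneg h0 (by linarith)
    gcongr
  linarith

namespace Q

/-! Facts on the logistic function. -/

lemma s_pos (t : ℝ) : 0 < s t := mul_pos (sigmoid_pos t) (by linarith [sigmoid_lt_one t])

lemma s_eq (t : ℝ) : s t = (1 - (1 - 2 * sigmoid t) ^ 2) / 4 := by unfold s; ring

lemma s_le (t : ℝ) : s t ≤ 1 / 4 := by
  rw [s_eq]
  nlinarith [sq_nonneg (1 - 2 * sigmoid t)]

lemma x_abs (t : ℝ) : |1 - 2 * sigmoid t| ≤ 1 := by
  rw [abs_le]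
  constructor <;> linarith [sigmoid_pos t, sigmoid_lt_one t]

/-- second derivative of `s` -/
noncomputable def sdd (t : ℝ) : ℝ := s t - 6 * s t ^ 2

/-- third derivative of `s` -/
noncomputable def sd3 (t : ℝ) : ℝ := sd t * (1 - 12 * s t)

lemma hasDerivAt_sig (t : ℝ) : HasDerivAt sigmoid (s t) t := hasDerivAt_sigmoid t

lemma hasDerivAt_s (t : ℝ) : HasDerivAt s (sd t) t := by
  have h := (hasDerivAt_sig t).mul ((hasDerivAt_const t (1 : ℝ)).sub (hasDerivAt_sig t))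
  exact h.congr_deriv (by unfold sd s; simp; ring)

lemma hasDerivAt_sd (t : ℝ) : HasDerivAt sd (sdd t) t := by
  have h := (hasDerivAt_s t).mul ((hasDerivAt_const t (1 : ℝ)).sub ((hasDerivAt_sig t).const_mul 2))
  exact h.congr_deriv (by unfold sdd sd s; simp; ring)

lemma hasDerivAt_sdd (t : ℝ) : HasDerivAt sdd (sd3 t) t := by
  have h := (hasDerivAt_s t).sub (((hasDerivAt_s t).pow 2).const_mul 6)
  exact h.congr_deriv (by unfold sd3; simp; ring)

lemma hasDerivAt_L (t : ℝ) : HasDerivAt L (sigmoid t) t := by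
  have h1 : HasDerivAt (fun t => 1 + exp t) (exp t) t := by
    simpa using (hasDerivAt_exp t).const_add 1
  have h2 := h1.log (by positivity)
  refine h2.congr_deriv ?_
  rw [sigmoid_def, exp_neg]
  have := exp_pos t
  field_simp
  ring

lemma continuous_s : Continuous s := by
  rw [continuous_iff_continuousAt]; exact fun t => (hasDerivAt_s t).continuousAt

lemma continuous_sd : Continuous sd := by
  rw [continuous_iff_continuousAt]; exact fun t => (hasDerivAt_sd t).continuousAt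

lemma s_neg (t : ℝ) : s (-t) = s t := by
  unfold s; rw [sigmoid_neg]; ring

lemma s_anti {a b : ℝ} (ha : 0 ≤ a) (hab : a ≤ b) : s b ≤ s a := by
  have h1 := sigmoid_le hab
  have h2 : (1 : ℝ) / 2 ≤ sigmoid a := by
    have := sigmoid_le ha
    rw [sigmoid_zero] at this
    linarith
  unfold s
  nlinarith

lemma s_abs_anti {m t : ℝ} (hm : 0 ≤ m) (h : m ≤ |t|) : s t ≤ s m := by
  rcases abs_cases t with ⟨h1, _⟩ | ⟨h1, _⟩
  · rw [h1] at h; exact s_anti hm h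
  · rw [h1] at h; rw [← s_neg t]; exact s_anti hm h

lemma sdd_ge (t : ℝ) : -(1 / 8) ≤ sdd t := by
  unfold sdd
  nlinarith [s_pos t, s_le t]

lemma sdd_le (t : ℝ) : sdd t ≤ 1 / 24 := by
  unfold sdd
  nlinarith [sq_nonneg (s t - 1 / 12)]

lemma sdd_ge' (t : ℝ) : -s t ≤ sdd t := by
  unfold sdd
  nlinarith [s_pos t, s_le t]

lemma sdd_le' (t : ℝ) : sdd t ≤ s t := by
  unfold sdd
  nlinarith [sq_nonneg (s t)]

lemma quintic {x : ℝ} (h0 : 0 ≤ x) (h1 : x ≤ 1) : 2 * x - 5 * x ^ 3 + 3 * x ^ 5 ≤ 52 / 100 := by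
  have h2 : x ^ 2 ≤ x := by nlinarith
  have h3 : x ^ 3 ≤ x := by nlinarith [mul_nonneg h0 h0]
  have h : 0 ≤ (x - 2 / 5) ^ 2 * (-3 * x ^ 3 - 2.4 * x ^ 2 + 3.56 * x + 3.232) :=
    mul_nonneg (sq_nonneg _) (by nlinarith)
  nlinarith [h]

lemma quintic' {x : ℝ} (h0 : 0 ≤ x) (h1 : x ≤ 1) : -(52 / 100) ≤ 2 * x - 5 * x ^ 3 + 3 * x ^ 5 := by
  have e : 2 * x - 5 * x ^ 3 + 3 * x ^ 5 = x * (1 - x ^ 2) * (2 - 3 * x ^ 2) := by ring
  rw [e]
  have hx2 : x ^ 2 ≤ 1 := by nlinarith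
  have h3 : 0 ≤ x * (1 - x ^ 2) := mul_nonneg h0 (by linarith)
  have h4 : x * (1 - x ^ 2) ≤ 1 / 2 := by
    nlinarith [sq_nonneg (x - 1 / 2), mul_nonneg h0 (sq_nonneg (x - 1 / 2)), mul_nonneg h0 h0]
  nlinarith [mul_nonneg h3 (sq_nonneg x)]

lemma sd3_eq (t : ℝ) : sd3 t = -(2 * (1 - 2 * sigmoid t) - 5 * (1 - 2 * sigmoid t) ^ 3
    + 3 * (1 - 2 * sigmoid t) ^ 5) / 4 := by
  unfold sd3 sd s; ring

lemma sd3_abs (t : ℝ) : |sd3 t| ≤ 13 / 100 := by
  rw [sd3_eq]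
  set x := 1 - 2 * sigmoid t
  have hx : |x| ≤ 1 := x_abs t
  rw [abs_le]
  rcases abs_cases x with ⟨h1, h2⟩ | ⟨h1, h2⟩
  · rw [h1] at hx
    have a := quintic h2 hx
    have b := quintic' h2 hx
    constructor <;> linarith
  · rw [h1] at hx
    have a := quintic (x := -x) (by linarith) hx
    have b := quintic' (x := -x) (by linarith) hx
    have e : 2 * -x - 5 * (-x) ^ 3 + 3 * (-x) ^ 5 = -(2 * x - 5 * x ^ 3 + 3 * x ^ 5) := by ring
    rw [e] at a b
    constructor <;> linarith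

lemma sd3_abs' (t : ℝ) : |sd3 t| ≤ s t := by
  have e : sd3 t = s t * ((1 - 2 * sigmoid t) * (3 * (1 - 2 * sigmoid t) ^ 2 - 2)) := by
    unfold sd3 sd s; ring
  rw [e, abs_mul, abs_of_pos (s_pos t)]
  have h : |(1 - 2 * sigmoid t) * (3 * (1 - 2 * sigmoid t) ^ 2 - 2)| ≤ 1 := by
    set x := 1 - 2 * sigmoid t
    have hx : |x| ≤ 1 := x_abs t
    rw [abs_le] at hx ⊢
    have h2 : 0 ≤ 1 - x := by linarith [hx.2]
    have h3 : 0 ≤ 1 + x := by linarith [hx.1]
    constructor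
    · nlinarith [mul_nonneg h3 (sq_nonneg (x - 2 / 3)), mul_nonneg h3 (sq_nonneg (2 * x - 1)),
        sq_nonneg x, mul_nonneg h3 (sq_nonneg x)]
    · nlinarith [mul_nonneg h2 (sq_nonneg (x + 2 / 3)), mul_nonneg h2 (sq_nonneg (2 * x + 1)),
        sq_nonneg x, mul_nonneg h2 (sq_nonneg x)]
  nlinarith [s_pos t]

end Q

end Pool.Agent.helper26.B3
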