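import Pool.Agent.helper26.B3.Curv

/-!
Curvature of the single terms and of the functions `F1, F2, F3, GG` on an integer box.
-/

namespace Pool.Agent.helper26.B3

open Real Set Q

variable {U0 U1 P0 P1 W0 W1 : ℤ}

/-- The value `x` lies between `lo / 64` and `hi / 64` on the box. -/
def Ran (U0 U1 P0 P1 W0 W1 lo hi : ℤ) (x : ℝ → ℝ → ℝ → ℝ) : Prop :=
  ∀ u p w, (bx U0 U1 P0 P1 W0 W1).mem u p w → (lo : ℝ) ≤ 64 * x u p w ∧ 64 * x u p w ≤ (hi : ℝ)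

lemma TB.of_SC3 {f : ℝ → ℝ → ℝ → ℝ} {x : ℤ} {M1 M2 M3 q : ℤ} (hx : 0 ≤ x) (h1 : 0 ≤ M1)
    (h2 : 0 ≤ M2) (h3 : 0 ≤ M3)
    (h : SC3 (bx U0 U1 P0 P1 W0 W1) ((x : ℝ) / 2 ^ 64 * (M1 : ℝ)) ((x : ℝ) / 2 ^ 64 * (M2 : ℝ))
      ((x : ℝ) / 2 ^ 64 * (M3 : ℝ)) f)
    (hq : q = M1 * ((U1 - U0) * (U1 - U0)) + M2 * ((P1 - P0) * (P1 - P0))
      + M3 * ((W1 - W0) * (W1 - W0))) :
    TB U0 U1 P0 P1 W0 W1 ((x * q : ℤ) : ℝ) f := by
  have hx' : (0 : ℝ) ≤ (x : ℝ) := by exact_mod_cast hx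
  have h1' : (0 : ℝ) ≤ (M1 : ℝ) := by exact_mod_cast h1
  have h2' : (0 : ℝ) ≤ (M2 : ℝ) := by exact_mod_cast h2
  have h3' : (0 : ℝ) ≤ (M3 : ℝ) := by exact_mod_cast h3
  refine ⟨_, _, _, by positivity, by positivity, by positivity, h, le_of_eq ?_⟩
  rw [hq]
  push_cast
  field_simp

section
variable {lo hi : ℤ} {x0 x1 : ℝ → ℝ → ℝ → ℝ} {M1 M2 M3 q : ℤ}

lemma TB.term_s (c : ℤ) (hm : dist lo hi ≤ 2048) (a1 a2 a3 : ℝ)
    (hx0 : ∀ u p w, x0 u p w = a1 * u + a2 * p + a3 * w)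
    (r0 : Ran U0 U1 P0 P1 W0 W1 lo hi x0)
    (h1 : a1 ^ 2 = M1) (h2 : a2 ^ 2 = M2) (h3 : a3 ^ 2 = M3)
    (hq : q = M1 * ((U1 - U0) * (U1 - U0)) + M2 * ((P1 - P0) * (P1 - P0))
      + M3 * ((W1 - W0) * (W1 - W0))) :
    TB U0 U1 P0 P1 W0 W1 ((B3.cur c (km (dist lo hi)) (kp (dist lo hi)) * q : ℤ) : ℝ)
      (fun u p w => (c : ℝ) * s (x0 u p w)) := by
  have e1 : 0 ≤ M1 := by have : (0 : ℝ) ≤ M1 := by rw [← h1]; positivity
                         exact_mod_cast this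
  have e2 : 0 ≤ M2 := by have : (0 : ℝ) ≤ M2 := by rw [← h2]; positivity
                         exact_mod_cast this
  have e3 : 0 ≤ M3 := by have : (0 : ℝ) ≤ M3 := by rw [← h3]; positivity
                         exact_mod_cast this
  refine TB.cur ?_ ?_ c
  · have := SC3.comp (B := bx U0 U1 P0 P1 W0 W1) (SC_km hm) a1 a2 a3 (fun u p w h => by
      rw [← hx0]; exact mem_lin (r0 u p w h).1 (r0 u p w h).2)
    rw [h1, h2, h3] at this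
    exact (TB.of_SC3 (km_nonneg _) e1 e2 e3 this hq).congr fun u p w => by rw [hx0]
  · have := SC3.comp (B := bx U0 U1 P0 P1 W0 W1) (SC_kp hm) a1 a2 a3 (fun u p w h => by
      rw [← hx0]; exact mem_lin (r0 u p w h).1 (r0 u p w h).2)
    rw [h1, h2, h3] at this
    exact (TB.of_SC3 (kp_nonneg _) e1 e2 e3 this hq).congr fun u p w => by rw [hx0]

lemma TB.term_Av (c : ℤ) (hm : dist lo hi ≤ 2048) (a1 a2 a3 b1 b2 b3 : ℝ)
    (hx0 : ∀ u p w, x0 u p w = a1 * u + a2 * p + a3 * w)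
    (hx1 : ∀ u p w, x1 u p w = b1 * u + b2 * p + b3 * w)
    (r0 : Ran U0 U1 P0 P1 W0 W1 lo hi x0) (r1 : Ran U0 U1 P0 P1 W0 W1 lo hi x1)
    (h1 : a1 ^ 2 ≤ M1) (h1' : b1 ^ 2 ≤ M1) (h2 : a2 ^ 2 ≤ M2) (h2' : b2 ^ 2 ≤ M2)
    (h3 : a3 ^ 2 ≤ M3) (h3' : b3 ^ 2 ≤ M3)
    (hq : q = M1 * ((U1 - U0) * (U1 - U0)) + M2 * ((P1 - P0) * (P1 - P0))
      + M3 * ((W1 - W0) * (W1 - W0))) :
    TB U0 U1 P0 P1 W0 W1 ((B3.cur c (km (dist lo hi)) (kp (dist lo hi)) * q : ℤ) : ℝ)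
      (fun u p w => (c : ℝ) * Av s (x0 u p w) (x1 u p w)) := by
  have e1 : 0 ≤ M1 := by exact_mod_cast (sq_nonneg a1).trans h1
  have e2 : 0 ≤ M2 := by exact_mod_cast (sq_nonneg a2).trans h2
  have e3 : 0 ≤ M3 := by exact_mod_cast (sq_nonneg a3).trans h3
  have m0 : ∀ u p w, (bx U0 U1 P0 P1 W0 W1).mem u p w →
      a1 * u + a2 * p + a3 * w ∈ Icc ((lo : ℝ) / 64) ((hi : ℝ) / 64) := fun u p w h => by
    rw [← hx0]; exact mem_lin (r0 u p w h).1 (r0 u p w h).2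
  have m1 : ∀ u p w, (bx U0 U1 P0 P1 W0 W1).mem u p w →
      b1 * u + b2 * p + b3 * w ∈ Icc ((lo : ℝ) / 64) ((hi : ℝ) / 64) := fun u p w h => by
    rw [← hx1]; exact mem_lin (r1 u p w h).1 (r1 u p w h).2
  refine TB.cur ?_ ?_ c
  · have := Av_SC3 continuous_s (SC_km hm) (convex_Icc _ _)
      (div_nonneg (by exact_mod_cast km_nonneg _) (by positivity)) m0 m1 h1 h1' h2 h2' h3 h3'
    exact (TB.of_SC3 (km_nonneg _) e1 e2 e3 this hq).congr fun u p w => by rw [hx0, hx1]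
  · have := Av_SC3 (continuous_s.neg) (SC_kp hm) (convex_Icc _ _)
      (div_nonneg (by exact_mod_cast kp_nonneg _) (by positivity)) m0 m1 h1 h1' h2 h2' h3 h3'
    exact (TB.of_SC3 (kp_nonneg _) e1 e2 e3 this hq).congr fun u p w => by
      rw [hx0, hx1]; exact Av_neg s _ _

lemma TB.term_Av6 (c : ℤ) (hm : dist lo hi ≤ 2048) (a1 a2 a3 b1 b2 b3 : ℝ)
    (hx0 : ∀ u p w, x0 u p w = a1 * u + a2 * p + a3 * w)
    (hx1 : ∀ u p w, x1 u p w = b1 * u + b2 * p + b3 * w)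
    (r0 : Ran U0 U1 P0 P1 W0 W1 lo hi x0) (r1 : Ran U0 U1 P0 P1 W0 W1 lo hi x1)
    (h1 : a1 ^ 2 ≤ M1) (h1' : b1 ^ 2 ≤ M1) (h2 : a2 ^ 2 ≤ M2) (h2' : b2 ^ 2 ≤ M2)
    (h3 : a3 ^ 2 ≤ M3) (h3' : b3 ^ 2 ≤ M3)
    (hq : q = M1 * ((U1 - U0) * (U1 - U0)) + M2 * ((P1 - P0) * (P1 - P0))
      + M3 * ((W1 - W0) * (W1 - W0))) :
    TB U0 U1 P0 P1 W0 W1 ((B3.cur c (k3 (dist lo hi)) (k3 (dist lo hi)) * q : ℤ) : ℝ)
      (fun u p w => (c : ℝ) * Av6 sd (x0 u p w) (x1 u p w)) := by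
  have e1 : 0 ≤ M1 := by exact_mod_cast (sq_nonneg a1).trans h1
  have e2 : 0 ≤ M2 := by exact_mod_cast (sq_nonneg a2).trans h2
  have e3 : 0 ≤ M3 := by exact_mod_cast (sq_nonneg a3).trans h3
  have m0 : ∀ u p w, (bx U0 U1 P0 P1 W0 W1).mem u p w →
      a1 * u + a2 * p + a3 * w ∈ Icc ((lo : ℝ) / 64) ((hi : ℝ) / 64) := fun u p w h => by
    rw [← hx0]; exact mem_lin (r0 u p w h).1 (r0 u p w h).2
  have m1 : ∀ u p w, (bx U0 U1 P0 P1 W0 W1).mem u p w →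
      b1 * u + b2 * p + b3 * w ∈ Icc ((lo : ℝ) / 64) ((hi : ℝ) / 64) := fun u p w h => by
    rw [← hx1]; exact mem_lin (r1 u p w h).1 (r1 u p w h).2
  refine TB.cur ?_ ?_ c
  · have := Av6_SC3 continuous_sd (SC_k3 hm) (convex_Icc _ _)
      (div_nonneg (by exact_mod_cast k3_nonneg _) (by positivity)) m0 m1 h1 h1' h2 h2' h3 h3'
    exact (TB.of_SC3 (k3_nonneg _) e1 e2 e3 this hq).congr fun u p w => by rw [hx0, hx1]
  · have := Av6_SC3 (continuous_sd.neg) (SC_k3' hm) (convex_Icc _ _)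
      (div_nonneg (by exact_mod_cast k3_nonneg _) (by positivity)) m0 m1 h1 h1' h2 h2' h3 h3'
    exact (TB.of_SC3 (k3_nonneg _) e1 e2 e3 this hq).congr fun u p w => by
      rw [hx0, hx1]; exact Av6_neg sd _ _

/-- `Av2` of `y_i` linear forms with coefficients `a, b, c, d`. -/
lemma TB.term_Av2 {x0 x1 x2 x3 : ℝ → ℝ → ℝ → ℝ} (c : ℤ) (hm : dist lo hi ≤ 2048)
    (a1 a2 a3 b1 b2 b3 c1 c2 c3 d1 d2 d3 : ℝ)
    (hx0 : ∀ u p w, x0 u p w = a1 * u + a2 * p + a3 * w)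
    (hx1 : ∀ u p w, x1 u p w = b1 * u + b2 * p + b3 * w)
    (hx2 : ∀ u p w, x2 u p w = c1 * u + c2 * p + c3 * w)
    (hx3 : ∀ u p w, x3 u p w = d1 * u + d2 * p + d3 * w)
    (r02 : Ran U0 U1 P0 P1 W0 W1 lo hi (fun u p w => x0 u p w + x2 u p w))
    (r12 : Ran U0 U1 P0 P1 W0 W1 lo hi (fun u p w => x1 u p w + x2 u p w))
    (r03 : Ran U0 U1 P0 P1 W0 W1 lo hi (fun u p w => x0 u p w + x3 u p w))
    (r13 : Ran U0 U1 P0 P1 W0 W1 lo hi (fun u p w => x1 u p w + x3 u p w))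
    (h1 : (a1 + c1) ^ 2 ≤ M1) (h1' : (b1 + c1) ^ 2 ≤ M1) (h1'' : (a1 + d1) ^ 2 ≤ M1)
    (h1''' : (b1 + d1) ^ 2 ≤ M1)
    (h2 : (a2 + c2) ^ 2 ≤ M2) (h2' : (b2 + c2) ^ 2 ≤ M2) (h2'' : (a2 + d2) ^ 2 ≤ M2)
    (h2''' : (b2 + d2) ^ 2 ≤ M2)
    (h3 : (a3 + c3) ^ 2 ≤ M3) (h3' : (b3 + c3) ^ 2 ≤ M3) (h3'' : (a3 + d3) ^ 2 ≤ M3)
    (h3''' : (b3 + d3) ^ 2 ≤ M3)
    (hq : q = M1 * ((U1 - U0) * (U1 - U0)) + M2 * ((P1 - P0) * (P1 - P0))
      + M3 * ((W1 - W0) * (W1 - W0))) :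
    TB U0 U1 P0 P1 W0 W1 ((B3.cur c (km (dist lo hi)) (kp (dist lo hi)) * q : ℤ) : ℝ)
      (fun u p w => (c : ℝ) * Av2 s (x0 u p w) (x1 u p w) (x2 u p w) (x3 u p w)) := by
  have e1 : 0 ≤ M1 := by exact_mod_cast (sq_nonneg (a1 + c1)).trans h1
  have e2 : 0 ≤ M2 := by exact_mod_cast (sq_nonneg (a2 + c2)).trans h2
  have e3 : 0 ≤ M3 := by exact_mod_cast (sq_nonneg (a3 + c3)).trans h3
  have m02 : ∀ u p w, (bx U0 U1 P0 P1 W0 W1).mem u p w →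
      (a1 + c1) * u + (a2 + c2) * p + (a3 + c3) * w ∈ Icc ((lo : ℝ) / 64) ((hi : ℝ) / 64) :=
    fun u p w h => by
      have := mem_lin (r02 u p w h).1 (r02 u p w h).2
      simp only [hx0, hx2] at this
      convert this using 1
      ring
  have m12 : ∀ u p w, (bx U0 U1 P0 P1 W0 W1).mem u p w →
      (b1 + c1) * u + (b2 + c2) * p + (b3 + c3) * w ∈ Icc ((lo : ℝ) / 64) ((hi : ℝ) / 64) :=
    fun u p w h => by
      have := mem_lin (r12 u p w h).1 (r12 u p w h).2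
      simp only [hx1, hx2] at this
      convert this using 1
      ring
  have m03 : ∀ u p w, (bx U0 U1 P0 P1 W0 W1).mem u p w →
      (a1 + d1) * u + (a2 + d2) * p + (a3 + d3) * w ∈ Icc ((lo : ℝ) / 64) ((hi : ℝ) / 64) :=
    fun u p w h => by
      have := mem_lin (r03 u p w h).1 (r03 u p w h).2
      simp only [hx0, hx3] at this
      convert this using 1
      ring
  have m13 : ∀ u p w, (bx U0 U1 P0 P1 W0 W1).mem u p w →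
      (b1 + d1) * u + (b2 + d2) * p + (b3 + d3) * w ∈ Icc ((lo : ℝ) / 64) ((hi : ℝ) / 64) :=
    fun u p w h => by
      have := mem_lin (r13 u p w h).1 (r13 u p w h).2
      simp only [hx1, hx3] at this
      convert this using 1
      ring
  refine TB.cur ?_ ?_ c
  · have := Av2_SC3 continuous_s (SC_km hm) (convex_Icc _ _)
      (div_nonneg (by exact_mod_cast km_nonneg _) (by positivity)) m02 m12 m03 m13
      h1 h1' h1'' h1''' h2 h2' h2'' h2''' h3 h3' h3'' h3'''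
    exact (TB.of_SC3 (km_nonneg _) e1 e2 e3 this hq).congr fun u p w => by
      rw [hx0, hx1, hx2, hx3]
  · have := Av2_SC3 (continuous_s.neg) (SC_kp hm) (convex_Icc _ _)
      (div_nonneg (by exact_mod_cast kp_nonneg _) (by positivity)) m02 m12 m03 m13
      h1 h1' h1'' h1''' h2 h2' h2'' h2''' h3 h3' h3'' h3'''
    exact (TB.of_SC3 (kp_nonneg _) e1 e2 e3 this hq).congr fun u p w => by
      rw [hx0, hx1, hx2, hx3]; exact Av2_neg s _ _ _ _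

end

end Pool.Agent.helper26.B3
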