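import Pool.Agent.helper26.B3.Forms

/-!
The conditions of a tripodal optimizer in terms of averages, and the basic contradiction from a
linear combination (Farkas multipliers).
-/

namespace Pool.Agent.helper26.B3

open Real Set Q

variable {y1 y2 y3 m1 m2 m3 : ℝ}

lemma Tri.E1' (h : Tri y1 y2 y3 m1 m2 m3) :
    m1 * Av s (y1 + y1) (y2 + y1) + m2 * Av s (y1 + y2) (y2 + y2) + m3 * Av s (y1 + y3) (y2 + y3)
      = 1 := by
  have h1 := h.h12
  have hd : y2 - y1 ≠ 0 := by intro hh; linarith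
  rw [Av_s (by intro hh; linarith), Av_s (by intro hh; linarith), Av_s (by intro hh; linarith)]
  rw [show y2 + y1 - (y1 + y1) = y2 - y1 by ring, show y2 + y2 - (y1 + y2) = y2 - y1 by ring,
    show y2 + y3 - (y1 + y3) = y2 - y1 by ring]
  have := h.E1
  generalize P (y1 + y1) (y2 + y1) = x1 at this ⊢
  generalize P (y1 + y2) (y2 + y2) = x2 at this ⊢
  generalize P (y1 + y3) (y2 + y3) = x3 at this ⊢
  field_simp
  linarith

lemma Tri.E2' (h : Tri y1 y2 y3 m1 m2 m3) :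
    m1 * Av s (y2 + y1) (y3 + y1) + m2 * Av s (y2 + y2) (y3 + y2) + m3 * Av s (y2 + y3) (y3 + y3)
      = 1 := by
  have h1 := h.h23
  have hd : y3 - y2 ≠ 0 := by intro hh; linarith
  rw [Av_s (by intro hh; linarith), Av_s (by intro hh; linarith), Av_s (by intro hh; linarith)]
  rw [show y3 + y1 - (y2 + y1) = y3 - y2 by ring, show y3 + y2 - (y2 + y2) = y3 - y2 by ring,
    show y3 + y3 - (y2 + y3) = y3 - y2 by ring]
  have := h.E2
  generalize P (y2 + y1) (y3 + y1) = x1 at this ⊢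
  generalize P (y2 + y2) (y3 + y2) = x2 at this ⊢
  generalize P (y2 + y3) (y3 + y3) = x3 at this ⊢
  field_simp
  linarith

lemma Tri.A1' (h : Tri y1 y2 y3 m1 m2 m3) :
    m1 * Av6 sd (y1 + y1) (y2 + y1) + m2 * Av6 sd (y1 + y2) (y2 + y2)
      + m3 * Av6 sd (y1 + y3) (y2 + y3) = 0 := by
  have h1 := h.h12
  have hd : y2 - y1 ≠ 0 := by intro hh; linarith
  rw [Av6_sd (by intro hh; linarith), Av6_sd (by intro hh; linarith),
    Av6_sd (by intro hh; linarith)]
  rw [show y2 + y1 - (y1 + y1) = y2 - y1 by ring, show y2 + y2 - (y1 + y2) = y2 - y1 by ring,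
    show y2 + y3 - (y1 + y3) = y2 - y1 by ring]
  have := h.A1
  generalize C (y1 + y1) (y2 + y1) = x1 at this ⊢
  generalize C (y1 + y2) (y2 + y2) = x2 at this ⊢
  generalize C (y1 + y3) (y2 + y3) = x3 at this ⊢
  field_simp
  linarith

lemma Tri.A2' (h : Tri y1 y2 y3 m1 m2 m3) :
    m1 * Av6 sd (y2 + y1) (y3 + y1) + m2 * Av6 sd (y2 + y2) (y3 + y2)
      + m3 * Av6 sd (y2 + y3) (y3 + y3) = 0 := by
  have h1 := h.h23
  have hd : y3 - y2 ≠ 0 := by intro hh; linarith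
  rw [Av6_sd (by intro hh; linarith), Av6_sd (by intro hh; linarith),
    Av6_sd (by intro hh; linarith)]
  rw [show y3 + y1 - (y2 + y1) = y3 - y2 by ring, show y3 + y2 - (y2 + y2) = y3 - y2 by ring,
    show y3 + y3 - (y2 + y3) = y3 - y2 by ring]
  have := h.A2
  generalize C (y2 + y1) (y3 + y1) = x1 at this ⊢
  generalize C (y2 + y2) (y3 + y2) = x2 at this ⊢
  generalize C (y2 + y3) (y3 + y3) = x3 at this ⊢
  field_simp
  linarith

/-- The total masses `c1, c2` exchanged on the gaps, in averaged form. -/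
lemma Tri.T3' (h : Tri y1 y2 y3 m1 m2 m3) (c1 c2 : ℝ)
    (hc : c1 + c2 = -(m1 * s (y3 + y1) + m2 * s (y3 + y2) + m3 * s (y3 + y3))) :
    m3 * (s (y3 + y3) + 2 * c1 * Av s (y1 + y3) (y2 + y3) + 2 * c2 * Av s (y2 + y3) (y3 + y3)
      + c1 ^ 2 * Av2 s y1 y2 y1 y2 + 2 * c1 * c2 * Av2 s y1 y2 y2 y3
      + c2 ^ 2 * Av2 s y2 y3 y2 y3)
      ≤ 1 - (m1 * s (y3 + y1) + m2 * s (y3 + y2) + m3 * s (y3 + y3)) := by
  have h1 := h.h12
  have h2 := h.h23
  have hd : y2 - y1 ≠ 0 := by intro hh; linarith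
  have hd' : y3 - y2 ≠ 0 := by intro hh; linarith
  have key := h.T3 (c1 / (y2 - y1)) (c2 / (y3 - y2)) (by
    rw [div_mul_cancel₀ _ hd, div_mul_cancel₀ _ hd']; exact hc)
  rw [Av_s (by intro hh; linarith), Av_s (by intro hh; linarith), Av2_s h1.ne h1.ne,
    Av2_s h1.ne h2.ne, Av2_s h2.ne h2.ne]
  rw [show y2 + y3 - (y1 + y3) = y2 - y1 by ring, show y3 + y3 - (y2 + y3) = y3 - y2 by ring]
  refine le_trans (le_of_eq ?_) key
  field_simp

/-- The quadratic form `1024 K_0` of the direction with `γ = g / 32`. -/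
noncomputable def K0 (g y1 y2 y3 : ℝ) : ℝ :=
  1024 * s (y3 + y3) - 64 * (32 + g) * Av s (y2 + y3) (y3 + y3) + 64 * g * Av s (y1 + y3) (y2 + y3)
    + (32 + g) ^ 2 * Av2 s y2 y3 y2 y3 - 2 * g * (32 + g) * Av2 s y1 y2 y2 y3
    + g ^ 2 * Av2 s y1 y2 y1 y2

/-- The derivative condition, times `32 * 1024`. -/
noncomputable def G0 (g k y1 y2 y3 : ℝ) : ℝ :=
  32 * (2048 + k) * Av s (y1 + y3) (y2 + y3) - 2 * 1024 * (32 + g) * Av2 s y1 y2 y2 y3
    + 2 * 1024 * g * Av2 s y1 y2 y1 y2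

lemma Av_s_nonneg (a b : ℝ) : 0 ≤ Av s a b := by
  unfold Av
  refine intervalIntegral.integral_nonneg zero_le_one fun τ _ => ?_
  have := (s_pos ((1 - τ) * a + τ * b)).le
  linarith

lemma Av2_s_nonneg (a b c d : ℝ) : 0 ≤ Av2 s a b c d := by
  unfold Av2
  refine intervalIntegral.integral_nonneg zero_le_one fun τ _ => ?_
  have := Av_s_nonneg ((1 - τ) * a + τ * b + c) ((1 - τ) * a + τ * b + d)
  linarith

/-- Contradiction from multipliers. `a, b` multiply the two mass conditions, `α, β` the two mean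
conditions, `mu` the condition at the third atom, `lam / 1024` the second order condition. -/
theorem Tri.farkas (h : Tri y1 y2 y3 m1 m2 m3) {a b α β mu lam g k : ℝ} (hl : 0 ≤ lam)
    (hmu : lam * (1024 + k) ≤ mu) (hk : 0 ≤ k) (hab : mu < a + b)
    (hG : 0 < lam → 0 ≤ G0 g k y1 y2 y3)
    (F1 : a * Av s (y1 + y1) (y2 + y1) + b * Av s (y2 + y1) (y3 + y1)
      + α * Av6 sd (y1 + y1) (y2 + y1) + β * Av6 sd (y2 + y1) (y3 + y1) - mu * s (y3 + y1) ≤ 0)
    (F2 : a * Av s (y1 + y2) (y2 + y2) + b * Av s (y2 + y2) (y3 + y2)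
      + α * Av6 sd (y1 + y2) (y2 + y2) + β * Av6 sd (y2 + y2) (y3 + y2) - mu * s (y3 + y2) ≤ 0)
    (F3 : a * Av s (y1 + y3) (y2 + y3) + b * Av s (y2 + y3) (y3 + y3)
      + α * Av6 sd (y1 + y3) (y2 + y3) + β * Av6 sd (y2 + y3) (y3 + y3) - mu * s (y3 + y3)
      - lam * K0 g y1 y2 y3 ≤ 0) : False := by
  have e1 := h.E1'
  have e2 := h.E2'
  have e3 := h.A1'
  have e4 := h.A2'
  have e5 := h.a3
  have p1 := h.m1pos
  have p2 := h.m2pos
  have p3 := h.m3pos
  set A3 := 1 - (m1 * s (y3 + y1) + m2 * s (y3 + y2) + m3 * s (y3 + y3)) with hA3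
  have hA0 : 0 ≤ A3 := by rw [hA3]; linarith
  -- the second order condition
  have key : lam * (m3 * K0 g y1 y2 y3) ≤ mu * A3 := by
    rcases hl.eq_or_lt with h0 | h0
    · rw [← h0] at hmu ⊢
      have : 0 ≤ mu := by linarith
      have := mul_nonneg this hA0
      linarith
    · have hg := hG h0
      have t := h.T3' (g / 32 + A3) (-(1 + g / 32)) (by rw [hA3]; ring)
      rw [← hA3] at t
      have hP : m3 * Av s (y1 + y3) (y2 + y3) ≤ 1 := by
        have q1 := mul_nonneg p1.le (Av_s_nonneg (y1 + y1) (y2 + y1))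
        have q2 := mul_nonneg p2.le (Av_s_nonneg (y1 + y2) (y2 + y2))
        linarith
      have hW := mul_nonneg p3.le (Av2_s_nonneg y1 y2 y1 y2)
      unfold G0 at hg
      -- 1024 * m3 * K(A3) = m3 * K0 + A3 * (...) + ...
      have hg' := mul_nonneg (mul_nonneg p3.le hA0) hg
      have hA2 := mul_nonneg hW (sq_nonneg A3)
      have hkP : k * A3 * (m3 * Av s (y1 + y3) (y2 + y3)) ≤ k * A3 * 1 :=
        mul_le_mul_of_nonneg_left hP (mul_nonneg hk hA0)
      have hmain : m3 * K0 g y1 y2 y3 ≤ (1024 + k) * A3 := by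
        unfold K0
        nlinarith [t, hg', hA2, hkP]
      calc lam * (m3 * K0 g y1 y2 y3) ≤ lam * ((1024 + k) * A3) :=
            mul_le_mul_of_nonneg_left hmain hl
        _ = lam * (1024 + k) * A3 := by ring
        _ ≤ mu * A3 := mul_le_mul_of_nonneg_right hmu hA0
  have f1 := mul_le_mul_of_nonneg_left F1 p1.le
  have f2 := mul_le_mul_of_nonneg_left F2 p2.le
  have f3 := mul_le_mul_of_nonneg_left F3 p3.le
  have s1 : a * (m1 * Av s (y1 + y1) (y2 + y1) + m2 * Av s (y1 + y2) (y2 + y2)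
      + m3 * Av s (y1 + y3) (y2 + y3)) = a := by rw [e1, mul_one]
  have s2 : b * (m1 * Av s (y2 + y1) (y3 + y1) + m2 * Av s (y2 + y2) (y3 + y2)
      + m3 * Av s (y2 + y3) (y3 + y3)) = b := by rw [e2, mul_one]
  have s3 : α * (m1 * Av6 sd (y1 + y1) (y2 + y1) + m2 * Av6 sd (y1 + y2) (y2 + y2)
      + m3 * Av6 sd (y1 + y3) (y2 + y3)) = 0 := by rw [e3, mul_zero]
  have s4 : β * (m1 * Av6 sd (y2 + y1) (y3 + y1) + m2 * Av6 sd (y2 + y2) (y3 + y2)
      + m3 * Av6 sd (y2 + y3) (y3 + y3)) = 0 := by rw [e4, mul_zero]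
  have s5 : mu * (m1 * s (y3 + y1) + m2 * s (y3 + y2) + m3 * s (y3 + y3)) = mu * (1 - A3) := by
    rw [hA3]; ring
  nlinarith [f1, f2, f3, s1, s2, s3, s4, s5, key]

end Pool.Agent.helper26.B3
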